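import Mathlib
import Pool.Agent.N506.EY0

/-!
# Graph products of groups

The class `GPClass` of groups.
-/

namespace Pool.Agent.U563.GP

open Pool.Agent.N506.EX

universe u v w

/-- The relators of the graph product: the elements of `G v` and `G w` commute if `v` and `w` are
adjacent. -/
def gpRels {V : Type u} (Γ : SimpleGraph V) (G : V → Type v) [∀ v, Group (G v)] :
    Set (Monoid.CoprodI G) :=
  {z | ∃ v w, Γ.Adj v w ∧ ∃ (a : G v) (b : G w),
    z = Monoid.CoprodI.of a * Monoid.CoprodI.of b * (Monoid.CoprodI.of a)⁻¹ *
      (Monoid.CoprodI.of b)⁻¹}

/-- The graph product of the groups `G v`, `v` a vertex of the graph `Γ`: the quotient of their free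
product by the relations which say that the elements of `G v` and `G w` commute if `v` and `w` are
adjacent. For a graph without edges it is the free product, for a complete graph it is the direct
sum, and for infinite cyclic groups `G v` it is the right-angled Artin group of `Γ`. -/
abbrev GraphProd {V : Type u} (Γ : SimpleGraph V) (G : V → Type v) [∀ v, Group (G v)] :
    Type (max u v) :=
  Monoid.CoprodI G ⧸ Subgroup.normalClosure (gpRels Γ G)

/-- The smallest class of groups which contains the groups with a finite subnormal series with
torsion-free abelian factors and is closed under subgroups, overgroups of finite index, directed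
unions and arbitrary graph products. -/
inductive GPClass : ∀ (G : Type u) [Group G], Prop
  | poly (G : Type u) [Group G] : PolyTFA G → GPClass G
  | sub (G H : Type u) [Group G] [Group H] (f : G →* H) : Function.Injective f →
      GPClass H → GPClass G
  | finiteIndex (G : Type u) [Group G] (H : Subgroup G) : H.FiniteIndex → GPClass H → GPClass G
  | locally (G : Type u) [Group G] : (∀ H : Subgroup G, H.FG → GPClass H) → GPClass G
  | graph (V : Type u) (Γ : SimpleGraph V) (G : V → Type u) [∀ v, Group (G v)] :
      (∀ v, GPClass (G v)) → GPClass (GraphProd Γ G)

end Pool.Agent.U563.GP
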