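import Pool.Agent.U563.GP.H

/-!
# The class is closed under all the operations, and matrix groups over its group rings
-/

namespace Pool.Agent.U563.GP

open MonoidAlgebra Pool.Agent.N506.EX

set_option linter.unusedSectionVars false
universe u v w

/-- All the finitely generated subgroups have a faithful representation. -/
def LQ (K : Type u) [Field K] (G : Type u) [Group G] : Prop :=
  ∀ H : Subgroup G, H.FG → QE K H

theorem fg_map {G H : Type u} [Group G] [Group H] {L : Subgroup G} (h : L.FG) (f : G →* H) :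
    (L.map f).FG := by
  classical
  obtain ⟨S, hS⟩ := h
  exact ⟨S.image f, by rw [Finset.coe_image, ← MonoidHom.map_closure, hS]⟩

theorem LQ.sub {K : Type u} [Field K] {G H : Type u} [Group G] [Group H] (h : LQ K H)
    (f : G →* H) (hf : Function.Injective f) : LQ K G := by
  intro L hL
  refine (h (L.map f) (fg_map hL f)).sub
    ((f.comp L.subtype).codRestrict (L.map f) (fun x => ⟨x, x.2, rfl⟩)) ?_
  intro x y hxy
  exact Subtype.ext (hf (congrArg Subtype.val hxy))

theorem LQ.finiteIndex {K : Type u} [Field K] {G : Type u} [Group G] (H : Subgroup G)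
    (hH : H.FiniteIndex) (h : LQ K H) : LQ K G := by
  intro L hL
  have hFG : Group.FG L := (Group.fg_iff_subgroup_fg L).mpr hL
  have hfi : (H.subgroupOf L).FiniteIndex := inferInstance
  have hfg : Group.FG (H.subgroupOf L) := inferInstance
  -- the intersection as a subgroup of `H`
  let f : H.subgroupOf L →* H :=
    { toFun := fun x => ⟨((x : L) : G), x.2⟩
      map_one' := rfl
      map_mul' := fun _ _ => rfl }
  have hf : Function.Injective f := by
    intro x y hxy
    exact Subtype.ext (Subtype.ext (congrArg (fun z : H => (z : G)) hxy))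
  have h1 : QE K f.range := h f.range (by
    rw [MonoidHom.range_eq_map]
    exact fg_map ((Group.fg_def).mp hfg) f)
  have h2 : QE K (H.subgroupOf L) := h1.sub f.rangeRestrict (by
    intro x y hxy
    exact hf (congrArg Subtype.val hxy))
  exact h2.finiteIndex

theorem LQ.locally {K : Type u} [Field K] {G : Type u} [Group G]
    (h : ∀ H : Subgroup G, H.FG → LQ K H) : LQ K G := by
  intro H hH
  have hFG : Group.FG H := (Group.fg_iff_subgroup_fg H).mpr hH
  refine (h H hH ⊤ ((Group.fg_def).mp hFG)).sub (Subgroup.topEquiv.symm.toMonoidHom) ?_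
  exact Subgroup.topEquiv.symm.injective

theorem LQ.poly (K : Type u) [Field K] {G : Type u} [Group G] (h : PolyTFA G) : LQ K G :=
  fun H _ => (QE.poly K h).sub H.subtype H.subtype_injective

theorem ev_mem_gsub {V : Type u} (Γ : SimpleGraph V) {G : V → Type u} [∀ v, Group (G v)]
    (S : Set V) (H : ∀ v : S, Subgroup (G v)) (L : List (Σ v, G v))
    (hL : ∀ x ∈ L, ∃ h : x.1 ∈ S, x.2 ∈ H ⟨x.1, h⟩) : ev Γ L ∈ (gsub Γ S H).range := by
  induction L with
  | nil => exact ⟨1, map_one _⟩
  | cons x L ih =>
    rw [ev]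
    refine Subgroup.mul_mem _ (ih fun y hy => hL y (List.mem_cons_of_mem _ hy)) ?_
    obtain ⟨h1, h2⟩ := hL x List.mem_cons_self
    exact ⟨gof _ _ ⟨x.1, h1⟩ ⟨x.2, h2⟩, gsub_gof Γ S H _ _⟩

theorem LQ.graph {K : Type u} [Field K] {V : Type u} (Γ : SimpleGraph V) (G : V → Type u)
    [∀ v, Group (G v)] (h : ∀ v, LQ K (G v)) : LQ K (GraphProd Γ G) := by
  classical
  intro H hH
  obtain ⟨T, hT⟩ := hH
  choose W hW using ev_surjective Γ (G := G)
  let A : Finset (Σ v, G v) := T.biUnion fun g => (W g).toFinset
  let F : Finset V := A.image Sigma.fst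
  let c : ∀ v, Finset (G v) := fun v =>
    (A.filter fun x => x.1 = v).attach.image
      fun x : {x : (Σ v, G v) // x ∈ A.filter fun x => x.1 = v} =>
        (show G v from (Finset.mem_filter.mp x.2).2 ▸ x.1.2)
  let Hs : ∀ v : (F : Set V), Subgroup (G v) := fun v => Subgroup.closure (c v : Set (G v))
  have hmem : ∀ x ∈ A, ∃ h : x.1 ∈ (F : Set V), x.2 ∈ Hs ⟨x.1, h⟩ := by
    intro x hx
    refine ⟨Finset.mem_coe.mpr (Finset.mem_image_of_mem _ hx), ?_⟩
    apply Subgroup.subset_closure
    rw [Finset.mem_coe, Finset.mem_image]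
    exact ⟨⟨x, Finset.mem_filter.mpr ⟨hx, rfl⟩⟩, Finset.mem_attach _ _, rfl⟩
  have hfin : Finite (F : Set V) := F.finite_toSet
  have h1 : QE K (GraphProd (Γ.induce (F : Set V)) (fun v : (F : Set V) => Hs v)) :=
    QE.graph_fin _ _ fun v => h v (Hs v) ⟨c v, rfl⟩
  have hle : H ≤ (gsub Γ (F : Set V) Hs).range := by
    rw [← hT, Subgroup.closure_le]
    intro g hg
    have := ev_mem_gsub Γ (F : Set V) Hs (W g) (fun x hx => hmem x (Finset.mem_biUnion.mpr
      ⟨g, hg, List.mem_toFinset.mpr hx⟩))
    rw [hW] at this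
    exact this
  have h2 : QE K (gsub Γ (F : Set V) Hs).range := by
    refine h1.sub (MonoidHom.ofInjective (gsub_injective Γ (F : Set V) Hs)).symm.toMonoidHom ?_
    exact (MonoidHom.ofInjective (gsub_injective Γ (F : Set V) Hs)).symm.injective
  exact h2.sub (Subgroup.inclusion hle) (Subgroup.inclusion_injective hle)

theorem GPClass.lq {G : Type u} [Group G] (h : GPClass G) (K : Type u) [Field K] : LQ K G := by
  induction h with
  | poly G h => exact LQ.poly K h
  | sub G H f hf _ ih => exact ih.sub f hf
  | finiteIndex G H hH _ ih => exact LQ.finiteIndex H hH ih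
  | locally G _ ih => exact LQ.locally ih
  | graph V Γ G _ ih => exact LQ.graph Γ G ih

theorem LQ.mex {K : Type u} [Field K] {G : Type u} [Group G] (h : LQ K G) :
    MEx (MonoidAlgebra K G) := by
  classical
  refine MEx.of_local fun s => ?_
  let L : Subgroup G := Subgroup.closure ((s.biUnion fun x => x.coeff.support : Finset G) : Set G)
  have hL : QE K L := h L ⟨_, rfl⟩
  obtain ⟨P, _, Q, _, _, o, f, hP, hf⟩ := hL.exists_algHom
  have h1 : MEx (MonoidAlgebra K L) := by
    refine ((hP.mex K).matrix Q).of_injective (f : MonoidAlgebra K L →+* _) ?_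
    rw [injective_iff_map_eq_zero]
    intro x hx
    apply hf
    intro j
    have := congrFun (congrFun hx o) j
    exact this
  refine ⟨(inc (A := K) L).range, ?_, ?_⟩
  · intro x hx
    obtain ⟨y, rfl⟩ := exists_inc L x (fun g hg => Subgroup.subset_closure
      (Finset.mem_coe.mpr (Finset.mem_biUnion.mpr ⟨x, hx, Finsupp.mem_support_iff.mpr hg⟩)))
    exact ⟨y, rfl⟩
  · exact h1.of_injective (RingEquiv.ofBijective (inc (A := K) L).rangeRestrict
      ⟨fun x y hxy => inc_injective L (congrArg Subtype.val hxy),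
        (inc (A := K) L).rangeRestrict_surjective⟩).symm.toRingHom (RingEquiv.injective _)

/-- Matrix groups over the group rings of the class. -/
theorem GPClass.mex {G : Type u} [Group G] (h : GPClass G) (A : Type u) [CommRing A] :
    MEx (MonoidAlgebra A G) :=
  mex_commRing (fun K _ => (h.lq K).mex) A

end Pool.Agent.U563.GP
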