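import Pool.Agent.U563.GP.Def

/-!
# Graph products: generators and words
-/

namespace Pool.Agent.U563.GP

universe u v w

variable {V : Type u} (Γ : SimpleGraph V) (G : V → Type v) [∀ v, Group (G v)]

/-- The inclusion of a vertex group. -/
def gof (v : V) : G v →* GraphProd Γ G :=
  (QuotientGroup.mk' _).comp Monoid.CoprodI.of

variable {G}

theorem gof_comm {v w : V} (h : Γ.Adj v w) (a : G v) (b : G w) :
    Commute (gof Γ G v a) (gof Γ G w b) := by
  have h1 : (QuotientGroup.mk' (Subgroup.normalClosure (gpRels Γ G)))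
      (Monoid.CoprodI.of a * Monoid.CoprodI.of b * (Monoid.CoprodI.of a)⁻¹ *
      (Monoid.CoprodI.of b)⁻¹) = 1 := by
    rw [QuotientGroup.mk'_apply, QuotientGroup.eq_one_iff]
    exact Subgroup.subset_normalClosure ⟨v, w, h, a, b, rfl⟩
  rw [map_mul, map_mul, map_mul, map_inv, map_inv] at h1
  change gof Γ G v a * gof Γ G w b * (gof Γ G v a)⁻¹ * (gof Γ G w b)⁻¹ = 1 at h1
  change gof Γ G v a * gof Γ G w b = gof Γ G w b * gof Γ G v a
  rw [mul_inv_eq_one, mul_inv_eq_iff_eq_mul] at h1
  exact h1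

/-- The universal property. -/
def glift {M : Type w} [Group M] (f : ∀ v, G v →* M)
    (hf : ∀ v w, Γ.Adj v w → ∀ (a : G v) (b : G w), Commute (f v a) (f w b)) :
    GraphProd Γ G →* M :=
  QuotientGroup.lift _ (Monoid.CoprodI.lift f) (by
    rw [← Subgroup.normalClosure_subset_iff]
    rintro z ⟨v, w, h, a, b, rfl⟩
    rw [SetLike.mem_coe, MonoidHom.mem_ker, map_mul, map_mul, map_mul, map_inv,
      map_inv, Monoid.CoprodI.lift_of, Monoid.CoprodI.lift_of, (hf v w h a b).eq]
    group)

theorem glift_gof {M : Type w} [Group M] (f : ∀ v, G v →* M)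
    (hf : ∀ v w, Γ.Adj v w → ∀ (a : G v) (b : G w), Commute (f v a) (f w b)) (v : V) (a : G v) :
    glift Γ f hf (gof Γ G v a) = f v a := by
  change Monoid.CoprodI.lift f (Monoid.CoprodI.of a) = _
  exact Monoid.CoprodI.lift_of f a

/-- The value of a word; the words are written from the right to the left. -/
def ev : List (Σ v, G v) → GraphProd Γ G
  | [] => 1
  | x :: L => ev L * gof Γ G x.1 x.2

theorem ev_append (L L' : List (Σ v, G v)) : ev Γ (L ++ L') = ev Γ L' * ev Γ L := by
  induction L with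
  | nil => simp [ev]
  | cons x L ih => rw [List.cons_append, ev, ev, ih, mul_assoc]

theorem ev_surjective : Function.Surjective (ev Γ (G := G)) := by
  intro g
  obtain ⟨g, rfl⟩ := QuotientGroup.mk'_surjective (Subgroup.normalClosure (gpRels Γ G)) g
  induction g using Monoid.CoprodI.induction_on with
  | one => exact ⟨[], (map_one _).symm⟩
  | of i m => exact ⟨[⟨i, m⟩], by rw [ev, ev, one_mul]; rfl⟩
  | mul x y hx hy =>
    obtain ⟨L, hL⟩ := hx
    obtain ⟨L', hL'⟩ := hy
    exact ⟨L' ++ L, by rw [ev_append, hL, hL', map_mul]⟩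

theorem ghom_ext {M : Type w} [Monoid M] (f g : GraphProd Γ G →* M)
    (h : ∀ v a, f (gof Γ G v a) = g (gof Γ G v a)) : f = g := by
  refine MonoidHom.ext fun x => ?_
  obtain ⟨L, rfl⟩ := ev_surjective Γ x
  induction L with
  | nil => simp [ev]
  | cons x L ih => rw [ev, map_mul, map_mul, ih, h]

end Pool.Agent.U563.GP
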