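import Pool.Agent.U563.GP.A

/-!
# The target group: a wreath product with shifts along the non-neighbours
-/

namespace Pool.Agent.U563.GP

set_option linter.unusedSectionVars false
universe u v w

variable {V : Type u} (Γ : SimpleGraph V) [DecidableRel Γ.Adj]

/-- The coordinates at the vertices which are not adjacent to `v`. -/
def mask (v : V) (z : V → ℤ) : V → ℤ := fun u => if Γ.Adj v u then 0 else z u

theorem mask_add (v : V) (z z' : V → ℤ) : mask Γ v (z + z') = mask Γ v z + mask Γ v z' := by
  funext u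
  simp only [mask, Pi.add_apply]
  split_ifs <;> simp

theorem mask_zero (v : V) : mask Γ v 0 = 0 := by
  funext u
  simp [mask]

theorem mask_self (v : V) (z : V → ℤ) : mask Γ v z v = z v := by
  simp [mask]

theorem mask_of_not {v u : V} (h : ¬ Γ.Adj v u) (z : V → ℤ) : mask Γ v z u = z u := by
  simp [mask, h]

theorem mask_mono (v : V) {z z' : V → ℤ} (h : z ≤ z') : mask Γ v z ≤ mask Γ v z' := by
  intro u
  simp only [mask]
  split_ifs
  · exact le_rfl
  · exact h u

variable [DecidableEq V] [Fintype V]

theorem mask_single_adj {v u : V} (h : Γ.Adj v u) : mask Γ v (Pi.single u 1) = 0 := by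
  funext w
  simp only [mask, Pi.zero_apply]
  split_ifs with h1
  · rfl
  · rw [Pi.single_eq_of_ne]
    rintro rfl
    exact h1 h

variable (P : V → Type u) [∀ v, Group (P v)]

/-- The base group. -/
abbrev Base : Type u := ∀ v, (V → ℤ) → P v × Multiplicative ℤ

/-- The shift action. -/
def act : Multiplicative (V → ℤ) →* MulAut (Base P) where
  toFun z :=
    { toFun := fun f v y => f v (y - mask Γ v z.toAdd)
      invFun := fun f v y => f v (y + mask Γ v z.toAdd)
      left_inv := fun f => by
        funext v y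
        simp only [add_sub_cancel_right]
      right_inv := fun f => by
        funext v y
        simp only [sub_add_cancel]
      map_mul' := fun f g => rfl }
  map_one' := by
    refine MulEquiv.ext fun f => ?_
    funext v y
    change f v (y - mask Γ v 0) = f v y
    rw [mask_zero, sub_zero]
  map_mul' z z' := by
    refine MulEquiv.ext fun f => ?_
    funext v y
    change f v (y - mask Γ v (z.toAdd + z'.toAdd)) =
      f v (y - mask Γ v z.toAdd - mask Γ v z'.toAdd)
    rw [mask_add, sub_sub]

theorem act_apply (z : Multiplicative (V → ℤ)) (f : Base P) (v : V) (y : V → ℤ) :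
    act Γ P z f v y = f v (y - mask Γ v z.toAdd) := rfl

/-- The target group. -/
abbrev WG : Type u := (Base P) ⋊[act Γ P] (Multiplicative (V → ℤ))

/-- The copy of `P v × ℤ` at the origin. -/
def bb (v : V) : P v × Multiplicative ℤ →* WG Γ P :=
  SemidirectProduct.inl.comp ((MonoidHom.mulSingle _ v).comp
    (MonoidHom.mulSingle (fun _ : V → ℤ => P v × Multiplicative ℤ) 0))

/-- The shift. -/
def tt (v : V) : WG Γ P := SemidirectProduct.inr (Multiplicative.ofAdd (Pi.single v 1))

/-- The step. -/
def tau (v : V) (a : P v × Multiplicative ℤ) : WG Γ P := tt Γ P v * bb Γ P v a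

variable {P}

theorem bb_left (v : V) (a : P v × Multiplicative ℤ) :
    (bb Γ P v a).left = Pi.mulSingle v (Pi.mulSingle 0 a) := rfl

theorem bb_right (v : V) (a : P v × Multiplicative ℤ) : (bb Γ P v a).right = 1 := rfl

theorem act_mulSingle (z : Multiplicative (V → ℤ)) (v : V) (a : P v × Multiplicative ℤ) :
    act Γ P z (Pi.mulSingle v (Pi.mulSingle 0 a)) =
      Pi.mulSingle v (Pi.mulSingle (mask Γ v z.toAdd) a) := by
  funext u y
  rw [act_apply]
  by_cases h : u = v
  · subst h
    rw [Pi.mulSingle_eq_same, Pi.mulSingle_eq_same]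
    by_cases h1 : y = mask Γ u z.toAdd
    · subst h1
      rw [sub_self, Pi.mulSingle_eq_same, Pi.mulSingle_eq_same]
    · rw [Pi.mulSingle_eq_of_ne h1, Pi.mulSingle_eq_of_ne (sub_ne_zero.mpr h1)]
  · rw [Pi.mulSingle_eq_of_ne h, Pi.mulSingle_eq_of_ne h]
    rfl

theorem mul_bb_left (π : WG Γ P) (v : V) (a : P v × Multiplicative ℤ) :
    (π * bb Γ P v a).left =
      π.left * Pi.mulSingle v (Pi.mulSingle (mask Γ v π.right.toAdd) a) := by
  rw [SemidirectProduct.mul_left, bb_left, act_mulSingle]

theorem mul_bb_right (π : WG Γ P) (v : V) (a : P v × Multiplicative ℤ) :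
    (π * bb Γ P v a).right = π.right := by
  rw [SemidirectProduct.mul_right, bb_right, mul_one]

theorem mul_tau_left (π : WG Γ P) (v : V) (a : P v × Multiplicative ℤ) :
    (π * tau Γ P v a).left =
      π.left * Pi.mulSingle v (Pi.mulSingle (mask Γ v (π.right.toAdd + Pi.single v 1)) a) := by
  rw [tau, ← mul_assoc, mul_bb_left]
  have h1 : (π * tt Γ P v).left = π.left := by
    rw [SemidirectProduct.mul_left, tt, SemidirectProduct.left_inr, map_one, mul_one]
  have h2 : (π * tt Γ P v).right.toAdd = π.right.toAdd + Pi.single v 1 := rfl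
  rw [h1, h2]

theorem mul_tau_right (π : WG Γ P) (v : V) (a : P v × Multiplicative ℤ) :
    (π * tau Γ P v a).right.toAdd = π.right.toAdd + Pi.single v 1 := by
  rw [tau, ← mul_assoc, mul_bb_right]
  rfl

theorem bb_comm {u v : V} (h : u ≠ v) (a : P u × Multiplicative ℤ) (b : P v × Multiplicative ℤ) :
    Commute (bb Γ P u a) (bb Γ P v b) := by
  change bb Γ P u a * bb Γ P v b = bb Γ P v b * bb Γ P u a
  refine SemidirectProduct.ext ?_ ?_
  · rw [mul_bb_left, mul_bb_left, bb_left, bb_left, bb_right, bb_right, toAdd_one, mask_zero,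
      mask_zero]
    exact Pi.mulSingle_commute h _ _
  · rw [mul_bb_right, mul_bb_right, bb_right, bb_right]

theorem tt_comm (u v : V) : Commute (tt Γ P u) (tt Γ P v) := by
  change tt Γ P u * tt Γ P v = tt Γ P v * tt Γ P u
  unfold tt
  rw [← map_mul SemidirectProduct.inr, ← map_mul SemidirectProduct.inr, mul_comm]

theorem tt_bb_comm {u v : V} (h : Γ.Adj v u) (b : P v × Multiplicative ℤ) :
    Commute (tt Γ P u) (bb Γ P v b) := by
  change tt Γ P u * bb Γ P v b = bb Γ P v b * tt Γ P u
  refine SemidirectProduct.ext ?_ ?_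
  · rw [mul_bb_left, tt, SemidirectProduct.left_inr, one_mul, SemidirectProduct.right_inr,
      toAdd_ofAdd, mask_single_adj Γ h, SemidirectProduct.mul_left, bb_left, bb_right, map_one,
      SemidirectProduct.left_inr]
    exact (mul_one _).symm
  · rw [mul_bb_right, SemidirectProduct.mul_right, bb_right, one_mul]

/-- The components are at past positions. -/
def Past (π : WG Γ P) : Prop := ∀ u y, π.left u y ≠ 1 → y ≤ mask Γ u π.right.toAdd

theorem past_one : Past Γ (1 : WG Γ P) := fun _ _ h => absurd rfl h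

theorem Past.fresh {π : WG Γ P} (h : Past Γ π) {u v : V} (huv : ¬ Γ.Adj u v) :
    π.left u (mask Γ u (π.right.toAdd + Pi.single v 1)) = 1 := by
  by_contra h1
  have h2 := h u _ h1 v
  rw [mask_of_not Γ huv, mask_of_not Γ huv, Pi.add_apply, Pi.single_eq_same] at h2
  exact absurd h2 (by simp)

theorem Past.mul_tau {π : WG Γ P} (h : Past Γ π) (v : V) (a : P v × Multiplicative ℤ) :
    Past Γ (π * tau Γ P v a) := by
  intro u y hy
  rw [mul_tau_left, Pi.mul_apply, Pi.mul_apply] at hy
  rw [mul_tau_right]
  have h0 : mask Γ u π.right.toAdd ≤ mask Γ u (π.right.toAdd + Pi.single v 1) :=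
    mask_mono Γ u (le_add_of_nonneg_right (by
      intro w
      by_cases hw : w = v
      · subst hw; simp
      · simp [hw]))
  by_cases h1 : π.left u y = 1
  · rw [h1, one_mul] at hy
    by_cases huv : u = v
    · subst huv
      rw [Pi.mulSingle_eq_same] at hy
      by_cases hyy : y = mask Γ u (π.right.toAdd + Pi.single u 1)
      · exact hyy.le
      · exact absurd (Pi.mulSingle_eq_of_ne hyy _) hy
    · rw [Pi.mulSingle_eq_of_ne huv] at hy
      exact absurd rfl hy
  · exact (h u y h1).trans h0

theorem tau_inj {π π' : WG Γ P} (h : Past Γ π) (h' : Past Γ π') {v : V}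
    {a a' : P v × Multiplicative ℤ} (he : π * tau Γ P v a = π' * tau Γ P v a') :
    π = π' ∧ a = a' := by
  have hr : π.right.toAdd = π'.right.toAdd := by
    have := congrArg (fun g : WG Γ P => g.right.toAdd) he
    simp only [mul_tau_right] at this
    exact add_right_cancel this
  have hl := congrArg (fun g : WG Γ P => g.left v
    (mask Γ v (π.right.toAdd + Pi.single v 1))) he
  simp only [mul_tau_left, Pi.mul_apply, Pi.mulSingle_eq_same] at hl
  have ha : a = a' := by
    rw [h.fresh Γ (Γ.irrefl), hr, h'.fresh Γ (Γ.irrefl), Pi.mulSingle_eq_same, one_mul,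
      one_mul] at hl
    exact hl
  subst ha
  exact ⟨mul_right_cancel he, rfl⟩

/-- The vertices whose last letter can be moved to the end. -/
noncomputable def Term (π : WG Γ P) : Finset V := by
  classical
  exact Finset.univ.filter fun v => π.left v (mask Γ v π.right.toAdd) ≠ 1

theorem mem_Term (π : WG Γ P) (v : V) :
    v ∈ Term Γ π ↔ π.left v (mask Γ v π.right.toAdd) ≠ 1 := by
  simp [Term]

theorem Term_one : Term Γ (1 : WG Γ P) = ∅ := by
  ext v
  rw [mem_Term]
  simp only [Finset.notMem_empty, iff_false, not_not]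
  rfl

theorem Term_mul_tau {π : WG Γ P} (h : Past Γ π) (v : V) (a : P v × Multiplicative ℤ)
    (ha : a ≠ 1) :
    Term Γ (π * tau Γ P v a) = insert v ((Term Γ π).filter (Γ.Adj v)) := by
  ext u
  rw [mem_Term, Finset.mem_insert, Finset.mem_filter, mem_Term, mul_tau_right, mul_tau_left,
    Pi.mul_apply, Pi.mul_apply]
  by_cases huv : u = v
  · subst huv
    rw [h.fresh Γ Γ.irrefl, one_mul, Pi.mulSingle_eq_same, Pi.mulSingle_eq_same]
    simp [ha]
  · rw [Pi.mulSingle_eq_of_ne huv, Pi.one_apply, mul_one]
    by_cases hadj : Γ.Adj v u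
    · rw [mask_add, mask_single_adj Γ hadj.symm, add_zero]
      simp [huv, hadj]
    · rw [h.fresh Γ (fun h1 => hadj h1.symm)]
      simp [huv, hadj]

/-- The degree. -/
def dg (π : WG Γ P) : ℤ := ∑ v, π.right.toAdd v

theorem dg_mul (π π' : WG Γ P) : dg Γ (π * π') = dg Γ π + dg Γ π' := by
  rw [dg, dg, dg, ← Finset.sum_add_distrib]
  rfl

theorem dg_one : dg Γ (1 : WG Γ P) = 0 := by
  rw [dg]
  exact Finset.sum_eq_zero fun _ _ => rfl

theorem dg_bb (v : V) (a : P v × Multiplicative ℤ) : dg Γ (bb Γ P v a) = 0 := by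
  rw [dg]
  exact Finset.sum_eq_zero fun _ _ => rfl

theorem dg_tt (v : V) : dg Γ (tt Γ P v) = 1 := by
  rw [dg]
  change ∑ u, (Pi.single v 1 : V → ℤ) u = 1
  exact Finset.sum_pi_single' v (1:ℤ) Finset.univ |>.trans (by simp)

theorem dg_tau (v : V) (a : P v × Multiplicative ℤ) : dg Γ (tau Γ P v a) = 1 := by
  rw [tau, dg_mul, dg_tt, dg_bb, add_zero]

end Pool.Agent.U563.GP
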