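import Pool.Agent.U563.GP.B

/-!
# The finite state representation of a graph product
-/

namespace Pool.Agent.U563.GP

open MonoidAlgebra

set_option linter.unusedSectionVars false
universe u v w

section Comm

variable {K : Type u} [CommRing K] {W : Type u} [Group W]

theorem commute_mapDomain {A B : Type v} [Group A] [Group B] (f : A →* W) (g : B →* W)
    (h : ∀ a b, Commute (f a) (g b)) (x : MonoidAlgebra K A) (y : MonoidAlgebra K B) :
    Commute (MonoidAlgebra.mapDomainAlgHom K K f x) (MonoidAlgebra.mapDomainAlgHom K K g y) := by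
  induction x using MonoidAlgebra.induction_linear with
  | zero => rw [map_zero]; exact Commute.zero_left _
  | add x x' hx hx' => rw [map_add]; exact hx.add_left hx'
  | single a r =>
    induction y using MonoidAlgebra.induction_linear with
    | zero => rw [map_zero]; exact Commute.zero_right _
    | add y y' hy hy' => rw [map_add]; exact hy.add_right hy'
    | single b t =>
      change MonoidAlgebra.mapDomain f _ * MonoidAlgebra.mapDomain g _ =
        MonoidAlgebra.mapDomain g _ * MonoidAlgebra.mapDomain f _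
      rw [MonoidAlgebra.mapDomain_single, MonoidAlgebra.mapDomain_single,
        MonoidAlgebra.single_mul_single, MonoidAlgebra.single_mul_single, (h a b).eq, mul_comm]

theorem commute_single_mapDomain {B : Type v} [Group B] (w : W) (g : B →* W)
    (h : ∀ b, Commute w (g b)) (y : MonoidAlgebra K B) :
    Commute (MonoidAlgebra.single w (1 : K)) (MonoidAlgebra.mapDomainAlgHom K K g y) := by
  induction y using MonoidAlgebra.induction_linear with
  | zero => rw [map_zero]; exact Commute.zero_right _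
  | add y y' hy hy' => rw [map_add]; exact hy.add_right hy'
  | single b t =>
    change _ * MonoidAlgebra.mapDomain g _ = MonoidAlgebra.mapDomain g _ * _
    rw [MonoidAlgebra.mapDomain_single,
      MonoidAlgebra.single_mul_single, MonoidAlgebra.single_mul_single, (h b).eq, mul_comm]

end Comm

variable {V : Type u} [DecidableEq V] [Fintype V] (Γ : SimpleGraph V) [DecidableRel Γ.Adj]
  {P : V → Type u} [∀ v, Group (P v)] {Q : V → Type u} [∀ v, Fintype (Q v)]
  [∀ v, DecidableEq (Q v)] (o : ∀ v, Q v) (K : Type u) [Field K]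

/-- The inclusion of a coefficient ring. -/
noncomputable def io (v : V) : MonoidAlgebra K (P v) →ₐ[K] MonoidAlgebra K (WG Γ P) :=
  MonoidAlgebra.mapDomainAlgHom K K ((bb Γ P v).comp (MonoidHom.inl _ _))

variable (Q) in
/-- The marks. -/
noncomputable def mk (v : V) (i : Q v) : Multiplicative ℤ :=
  Multiplicative.ofAdd (((Fintype.equivFin (Q v) i : ℕ) : ℤ) + 1)

theorem mk_ne_one (v : V) (i : Q v) : mk Q v i ≠ 1 := by
  intro h
  have h1 : (((Fintype.equivFin (Q v) i : ℕ) : ℤ) + 1) = 0 := h
  omega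

theorem mk_injective (v : V) : Function.Injective (mk Q v) := by
  intro i j h
  have h1 : (((Fintype.equivFin (Q v) i : ℕ) : ℤ) + 1) =
    (((Fintype.equivFin (Q v) j : ℕ) : ℤ) + 1) := h
  have h2 : (Fintype.equivFin (Q v) i : ℕ) = Fintype.equivFin (Q v) j := by omega
  exact (Fintype.equivFin (Q v)).injective (Fin.ext h2)

variable (P) in
/-- The recording step. -/
noncomputable def xx (v : V) (i : Q v) : MonoidAlgebra K (WG Γ P) :=
  MonoidAlgebra.single (tau Γ P v (1, mk Q v i)) 1

/-- The states. -/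
abbrev St (Q : V → Type u) : Type u := Finset V × (∀ v, Q v)

/-- The change of the marked set. -/
def step (v : V) (D : Finset V) : Finset V := if v ∈ D then D else insert v (D.filter (Γ.Adj v))

theorem mem_step (v : V) (D : Finset V) : v ∈ step Γ v D := by
  unfold step
  split_ifs with h
  · exact h
  · exact Finset.mem_insert_self _ _

theorem step_step (v : V) (D : Finset V) : step Γ v (step Γ v D) = step Γ v D := by
  rw [step, if_pos (mem_step Γ v D)]

theorem mem_step_adj {u v : V} (h : Γ.Adj u v) (D : Finset V) : u ∈ step Γ v D ↔ u ∈ D := by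
  unfold step
  split_ifs with h1
  · rfl
  · rw [Finset.mem_insert, Finset.mem_filter]
    constructor
    · rintro (h2 | h2)
      · exact absurd h2 h.ne
      · exact h2.1
    · intro h2
      exact Or.inr ⟨h2, h.symm⟩

theorem step_comm {u v : V} (h : Γ.Adj u v) (D : Finset V) :
    step Γ u (step Γ v D) = step Γ v (step Γ u D) := by
  by_cases hu : u ∈ D
  · have h1 : step Γ u D = D := by rw [step, if_pos hu]
    rw [h1, step, if_pos ((mem_step_adj Γ h D).mpr hu)]
  · by_cases hv : v ∈ D
    · have h1 : step Γ v D = D := by rw [step, if_pos hv]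
      have h2 : step Γ v (step Γ u D) = step Γ u D := by
        rw [step, if_pos ((mem_step_adj Γ h.symm D).mpr hv)]
      rw [h1, h2]
    · have h1 : u ∉ step Γ v D := fun h3 => hu ((mem_step_adj Γ h D).mp h3)
      have h2 : v ∉ step Γ u D := fun h3 => hv ((mem_step_adj Γ h.symm D).mp h3)
      rw [step, if_neg h1, step, if_neg hv]
      conv_rhs => rw [step, if_neg h2, step, if_neg hu]
      ext w
      simp only [Finset.mem_insert, Finset.mem_filter]
      constructor
      · rintro (rfl | ⟨rfl | ⟨h3, h4⟩, h5⟩)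
        · exact Or.inr ⟨Or.inl rfl, h.symm⟩
        · exact Or.inl rfl
        · exact Or.inr ⟨Or.inr ⟨h3, h5⟩, h4⟩
      · rintro (rfl | ⟨rfl | ⟨h3, h4⟩, h5⟩)
        · exact Or.inr ⟨Or.inl rfl, h⟩
        · exact Or.inl rfl
        · exact Or.inr ⟨Or.inr ⟨h3, h5⟩, h4⟩

/-- The new state. -/
def nv (v : V) (s : St Q) (j : Q v) : St Q := (step Γ v s.1, Function.update s.2 v j)

theorem nv_nv (v : V) (s : St Q) (j k : Q v) : nv Γ v (nv Γ v s j) k = nv Γ v s k := by
  unfold nv
  rw [step_step, Function.update_idem]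

theorem nv_comm {u v : V} (h : Γ.Adj u v) (s : St Q) (j : Q u) (k : Q v) :
    nv Γ v (nv Γ u s j) k = nv Γ u (nv Γ v s k) j := by
  unfold nv
  rw [step_comm Γ h.symm, Function.update_comm h.ne]

variable {K}

/-- The coefficients. -/
noncomputable def cc (v : V) (b : Matrix (Q v) (Q v) (MonoidAlgebra K (P v))) (s : St Q)
    (j : Q v) : MonoidAlgebra K (WG Γ P) :=
  if v ∈ s.1 then io Γ K v (b (s.2 v) j) else xx Γ P K v (s.2 v) * io Γ K v (b (o v) j)

theorem cc_nv_same (v : V) (b : Matrix (Q v) (Q v) (MonoidAlgebra K (P v))) (s : St Q)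
    (j k : Q v) : cc Γ o v b (nv Γ v s j) k = io Γ K v (b j k) := by
  have h1 : v ∈ (nv Γ v s j).1 := mem_step Γ v s.1
  have h2 : (nv Γ v s j).2 v = j := Function.update_self v j s.2
  rw [cc, if_pos h1, h2]

theorem cc_nv_adj {u v : V} (h : Γ.Adj u v) (b : Matrix (Q u) (Q u) (MonoidAlgebra K (P u)))
    (s : St Q) (j : Q v) (k : Q u) : cc Γ o u b (nv Γ v s j) k = cc Γ o u b s k := by
  have h1 : u ∈ (nv Γ v s j).1 ↔ u ∈ s.1 := mem_step_adj Γ h s.1
  have h2 : (nv Γ v s j).2 u = s.2 u := Function.update_of_ne h.ne _ _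
  unfold cc
  rw [h2]
  simp only [h1]

theorem io_comm {u v : V} (h : u ≠ v) (x : MonoidAlgebra K (P u)) (y : MonoidAlgebra K (P v)) :
    Commute (io Γ K u x) (io Γ K v y) :=
  commute_mapDomain _ _ (fun _ _ => bb_comm Γ h _ _) x y

theorem xx_io_comm {u v : V} (h : Γ.Adj u v) (i : Q u) (y : MonoidAlgebra K (P v)) :
    Commute (xx Γ P K u i) (io Γ K v y) :=
  commute_single_mapDomain _ _ (fun _ =>
    (tt_bb_comm Γ h.symm _).mul_left (bb_comm Γ h.ne _ _)) y

theorem xx_comm {u v : V} (h : Γ.Adj u v) (i : Q u) (j : Q v) :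
    Commute (xx Γ P K u i) (xx Γ P K v j) := by
  change _ * _ = _ * _
  unfold xx
  rw [MonoidAlgebra.single_mul_single, MonoidAlgebra.single_mul_single]
  congr 1
  exact (Commute.mul_left
    ((tt_comm Γ u v).mul_right (tt_bb_comm Γ h.symm _))
    ((tt_bb_comm Γ h _).symm.mul_right (bb_comm Γ h.ne _ _))).eq

theorem cc_comm {u v : V} (h : Γ.Adj u v) (a : Matrix (Q u) (Q u) (MonoidAlgebra K (P u)))
    (b : Matrix (Q v) (Q v) (MonoidAlgebra K (P v))) (s s' : St Q) (j : Q u) (k : Q v) :
    Commute (cc Γ o u a s j) (cc Γ o v b s' k) := by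
  unfold cc
  split_ifs
  · exact io_comm Γ h.ne _ _
  · exact (xx_io_comm Γ h.symm _ _).symm.mul_right (io_comm Γ h.ne _ _)
  · exact (xx_io_comm Γ h _ _).mul_left (io_comm Γ h.ne _ _)
  · exact ((xx_comm Γ h _ _).mul_right (xx_io_comm Γ h _ _)).mul_left
      ((xx_io_comm Γ h.symm _ _).symm.mul_right (io_comm Γ h.ne _ _))

/-- The operators. -/
noncomputable def NN (v : V) (b : Matrix (Q v) (Q v) (MonoidAlgebra K (P v))) :
    Matrix (St Q) (St Q) (MonoidAlgebra K (WG Γ P)) :=
  Matrix.of fun s' s => ∑ j, if s = nv Γ v s' j then cc Γ o v b s' j else 0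

theorem NN_apply (v : V) (b : Matrix (Q v) (Q v) (MonoidAlgebra K (P v))) (s' s : St Q) :
    NN Γ o v b s' s = ∑ j, if s = nv Γ v s' j then cc Γ o v b s' j else 0 := rfl

theorem NN_mul_apply {u v : V} (a : Matrix (Q v) (Q v) (MonoidAlgebra K (P v)))
    (b : Matrix (Q u) (Q u) (MonoidAlgebra K (P u))) (s' s : St Q) :
    (NN Γ o v a * NN Γ o u b) s' s =
      ∑ j, ∑ k, if s = nv Γ u (nv Γ v s' j) k then
        cc Γ o v a s' j * cc Γ o u b (nv Γ v s' j) k else 0 := by
  rw [Matrix.mul_apply]
  simp only [NN_apply, Finset.sum_mul]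
  rw [Finset.sum_comm]
  refine Finset.sum_congr rfl fun j _ => ?_
  simp only [ite_mul, zero_mul]
  rw [Finset.sum_ite_eq' Finset.univ (nv Γ v s' j)]
  rw [if_pos (Finset.mem_univ _), Finset.mul_sum]
  refine Finset.sum_congr rfl fun k _ => ?_
  rw [mul_ite, mul_zero]

theorem NN_mul_same (v : V) (a b : Matrix (Q v) (Q v) (MonoidAlgebra K (P v))) :
    NN Γ o v a * NN Γ o v b = NN Γ o v (a * b) := by
  refine Matrix.ext fun s' s => ?_
  rw [NN_mul_apply, Finset.sum_comm, NN_apply]
  refine Finset.sum_congr rfl fun k _ => ?_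
  simp only [nv_nv, cc_nv_same]
  by_cases h : s = nv Γ v s' k
  · simp only [if_pos h]
    unfold cc
    split_ifs
    · rw [Matrix.mul_apply, map_sum]
      exact Finset.sum_congr rfl fun j _ => (map_mul _ _ _).symm
    · rw [Matrix.mul_apply, map_sum, Finset.mul_sum]
      exact Finset.sum_congr rfl fun j _ => by rw [map_mul, mul_assoc]
  · simp only [if_neg h, Finset.sum_const_zero]

theorem NN_comm {u v : V} (h : Γ.Adj u v) (a : Matrix (Q u) (Q u) (MonoidAlgebra K (P u)))
    (b : Matrix (Q v) (Q v) (MonoidAlgebra K (P v))) :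
    NN Γ o u a * NN Γ o v b = NN Γ o v b * NN Γ o u a := by
  refine Matrix.ext fun s' s => ?_
  rw [NN_mul_apply, NN_mul_apply, Finset.sum_comm]
  refine Finset.sum_congr rfl fun k _ => Finset.sum_congr rfl fun j _ => ?_
  rw [nv_comm Γ h, cc_nv_adj Γ o h.symm, cc_nv_adj Γ o h, (cc_comm Γ o h a b s' s' j k).eq]

theorem cc_add (v : V) (a b : Matrix (Q v) (Q v) (MonoidAlgebra K (P v))) (s : St Q) (j : Q v) :
    cc Γ o v (a + b) s j = cc Γ o v a s j + cc Γ o v b s j := by
  unfold cc
  split_ifs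
  · rw [Matrix.add_apply, map_add]
  · rw [Matrix.add_apply, map_add, mul_add]

theorem cc_zero (v : V) (s : St Q) (j : Q v) :
    cc Γ o v (0 : Matrix (Q v) (Q v) (MonoidAlgebra K (P v))) s j = 0 := by
  unfold cc
  split_ifs
  · rw [Matrix.zero_apply, map_zero]
  · rw [Matrix.zero_apply, map_zero, mul_zero]

theorem NN_add (v : V) (a b : Matrix (Q v) (Q v) (MonoidAlgebra K (P v))) :
    NN Γ o v (a + b) = NN Γ o v a + NN Γ o v b := by
  refine Matrix.ext fun s' s => ?_
  rw [Matrix.add_apply, NN_apply, NN_apply, NN_apply, ← Finset.sum_add_distrib]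
  refine Finset.sum_congr rfl fun j _ => ?_
  split_ifs
  · exact cc_add Γ o v a b s' j
  · rw [add_zero]

theorem NN_zero (v : V) :
    NN Γ o v (0 : Matrix (Q v) (Q v) (MonoidAlgebra K (P v))) = 0 := by
  refine Matrix.ext fun s' s => ?_
  rw [Matrix.zero_apply, NN_apply]
  refine Finset.sum_eq_zero fun j _ => ?_
  rw [cc_zero]
  exact ite_self 0

variable {G : V → Type v} [∀ v, Group (G v)]
  (ρ : ∀ v, G v →* Matrix (Q v) (Q v) (MonoidAlgebra K (P v)))

/-- The representation of a vertex group. -/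
noncomputable def MM (v : V) : G v →* Matrix (St Q) (St Q) (MonoidAlgebra K (WG Γ P)) where
  toFun g := 1 + NN Γ o v (ρ v g - 1)
  map_one' := by rw [map_one, sub_self, NN_zero, add_zero]
  map_mul' g h := by
    rw [add_mul, one_mul, mul_add, mul_one, NN_mul_same]
    have h1 : ρ v (g * h) - 1 = (ρ v h - 1) + ((ρ v g - 1) + (ρ v g - 1) * (ρ v h - 1)) := by
      rw [map_mul]
      noncomm_ring
    rw [h1, NN_add, NN_add]
    abel

theorem MM_apply (v : V) (g : G v) : MM Γ o ρ v g = 1 + NN Γ o v (ρ v g - 1) := rfl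

theorem MM_comm {u v : V} (h : Γ.Adj u v) (a : G u) (b : G v) :
    Commute (MM Γ o ρ u a) (MM Γ o ρ v b) := by
  rw [MM_apply, MM_apply]
  refine Commute.add_left (Commute.one_left _) (Commute.add_right (Commute.one_right _) ?_)
  exact NN_comm Γ o h _ _

/-- The representation of the graph product. -/
noncomputable def Rep : GraphProd Γ G →* (Matrix (St Q) (St Q) (MonoidAlgebra K (WG Γ P)))ˣ :=
  glift Γ (fun v => (MM Γ o ρ v).toHomUnits) (fun u v h a b => by
    rw [Commute, SemiconjBy, ← Units.val_inj]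
    exact MM_comm Γ o ρ h a b)

theorem Rep_gof (v : V) (a : G v) :
    ((Rep Γ o ρ (gof Γ G v a) : (Matrix (St Q) (St Q) (MonoidAlgebra K (WG Γ P)))ˣ) :
      Matrix (St Q) (St Q) (MonoidAlgebra K (WG Γ P))) = MM Γ o ρ v a := by
  rw [Rep, glift_gof]
  rfl

end Pool.Agent.U563.GP
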