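import Pool.Agent.U563.GP.C
import Pool.Agent.N506.EYI

/-!
# Top parts
-/

namespace Pool.Agent.U563.GP

open MonoidAlgebra

set_option linter.unusedSectionVars false
universe u v w

variable {V : Type u} [DecidableEq V] [Fintype V] (Γ : SimpleGraph V) [DecidableRel Γ.Adj]
  {P : V → Type u} [∀ v, Group (P v)] {Q : V → Type u} [∀ v, Fintype (Q v)]
  [∀ v, DecidableEq (Q v)] (o : ∀ v, Q v) {K : Type u} [Field K]

/-- Homogeneous elements. -/
def DE (n : ℤ) (x : MonoidAlgebra K (WG Γ P)) : Prop := ∀ π, x.coeff π ≠ 0 → dg Γ π = n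

/-- Elements of degree less than `n`. -/
def DD (n : ℤ) (x : MonoidAlgebra K (WG Γ P)) : Prop := ∀ π, x.coeff π ≠ 0 → dg Γ π < n

theorem DE.zero (n : ℤ) : DE Γ n (0 : MonoidAlgebra K (WG Γ P)) := fun _ h => absurd rfl h

theorem DD.zero (n : ℤ) : DD Γ n (0 : MonoidAlgebra K (WG Γ P)) := fun _ h => absurd rfl h

variable {Γ}

theorem DE.dd {m n : ℤ} {x : MonoidAlgebra K (WG Γ P)} (h : DE Γ m x) (hmn : m < n) : DD Γ n x :=
  fun π hπ => by rw [h π hπ]; exact hmn

theorem DD.mono {m n : ℤ} {x : MonoidAlgebra K (WG Γ P)} (h : DD Γ m x) (hmn : m ≤ n) : DD Γ n x :=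
  fun π hπ => (h π hπ).trans_le hmn

theorem DE.add {n : ℤ} {x y : MonoidAlgebra K (WG Γ P)} (hx : DE Γ n x) (hy : DE Γ n y) :
    DE Γ n (x + y) := by
  intro π hπ
  rw [MonoidAlgebra.coeff_add, Finsupp.add_apply] at hπ
  by_cases h : x.coeff π = 0
  · exact hy π (fun h1 => hπ (by rw [h, h1, add_zero]))
  · exact hx π h

theorem DD.add {n : ℤ} {x y : MonoidAlgebra K (WG Γ P)} (hx : DD Γ n x) (hy : DD Γ n y) :
    DD Γ n (x + y) := by
  intro π hπ
  rw [MonoidAlgebra.coeff_add, Finsupp.add_apply] at hπ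
  by_cases h : x.coeff π = 0
  · exact hy π (fun h1 => hπ (by rw [h, h1, add_zero]))
  · exact hx π h

theorem DE.sum {ι : Type*} {n : ℤ} (s : Finset ι) {f : ι → MonoidAlgebra K (WG Γ P)}
    (h : ∀ i ∈ s, DE Γ n (f i)) : DE Γ n (∑ i ∈ s, f i) := by
  classical
  induction s using Finset.induction_on with
  | empty => rw [Finset.sum_empty]; exact DE.zero Γ n
  | insert i s hi ih =>
    rw [Finset.sum_insert hi]
    exact (h i (Finset.mem_insert_self _ _)).add (ih fun j hj => h j (Finset.mem_insert_of_mem hj))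

theorem DD.sum {ι : Type*} {n : ℤ} (s : Finset ι) {f : ι → MonoidAlgebra K (WG Γ P)}
    (h : ∀ i ∈ s, DD Γ n (f i)) : DD Γ n (∑ i ∈ s, f i) := by
  classical
  induction s using Finset.induction_on with
  | empty => rw [Finset.sum_empty]; exact DD.zero Γ n
  | insert i s hi ih =>
    rw [Finset.sum_insert hi]
    exact (h i (Finset.mem_insert_self _ _)).add (ih fun j hj => h j (Finset.mem_insert_of_mem hj))

theorem DE.mul {m n : ℤ} {x y : MonoidAlgebra K (WG Γ P)} (hx : DE Γ m x) (hy : DE Γ n y) :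
    DE Γ (m + n) (x * y) := by
  intro π hπ
  obtain ⟨a, b, ha, hb, rfl⟩ := Pool.Agent.N506.EX.coeff_mul_ne hπ
  rw [dg_mul, hx a ha, hy b hb]

theorem DD.mul {m n : ℤ} {x y : MonoidAlgebra K (WG Γ P)} (hx : DD Γ m x) (hy : DE Γ n y) :
    DD Γ (m + n) (x * y) := by
  intro π hπ
  obtain ⟨a, b, ha, hb, rfl⟩ := Pool.Agent.N506.EX.coeff_mul_ne hπ
  rw [dg_mul, hy b hb]
  have := hx a ha
  omega

theorem DE.one : DE Γ 0 (1 : MonoidAlgebra K (WG Γ P)) := by
  classical
  intro π hπ
  rw [MonoidAlgebra.one_def, MonoidAlgebra.coeff_single, Finsupp.single_apply] at hπ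
  split_ifs at hπ with h
  · rw [← h, dg_one]
  · exact absurd rfl hπ

variable (Γ)

theorem io_coeff_ne {v : V} {c : MonoidAlgebra K (P v)} {π : WG Γ P}
    (h : (io Γ K v c).coeff π ≠ 0) : ∃ p, π = bb Γ P v (p, 1) := by
  classical
  have h1 : π ∈ (io Γ K v c).coeff.support := Finsupp.mem_support_iff.mpr h
  have h2 : (io Γ K v c).coeff.support ⊆
      c.coeff.support.image ((bb Γ P v).comp (MonoidHom.inl _ _)) :=
    Finsupp.mapDomain_support
  obtain ⟨p, _, hp⟩ := Finset.mem_image.mp (h2 h1)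
  exact ⟨p, hp.symm⟩

theorem io_de (v : V) (c : MonoidAlgebra K (P v)) : DE Γ 0 (io Γ K v c) := by
  intro π hπ
  obtain ⟨p, rfl⟩ := io_coeff_ne Γ hπ
  exact dg_bb Γ v _

theorem xx_coeff_ne {v : V} {i : Q v} {π : WG Γ P} (h : (xx Γ P K v i).coeff π ≠ 0) :
    π = tau Γ P v (1, mk Q v i) := by
  classical
  rw [xx, MonoidAlgebra.coeff_single, Finsupp.single_apply] at h
  split_ifs at h with h1
  · exact h1.symm
  · exact absurd rfl h

theorem xx_de (v : V) (i : Q v) : DE Γ 1 (xx Γ P K v i) := by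
  intro π hπ
  rw [xx_coeff_ne Γ hπ, dg_tau]

theorem tau_mul_bb (v : V) (p : P v) (z : Multiplicative ℤ) :
    tau Γ P v (1, z) * bb Γ P v (p, 1) = tau Γ P v (p, z) := by
  rw [tau, tau, mul_assoc, ← map_mul]
  congr 2
  exact Prod.ext (one_mul p) (mul_one z)

theorem xx_io_coeff_ne {v : V} {i : Q v} {c : MonoidAlgebra K (P v)} {π : WG Γ P}
    (h : (xx Γ P K v i * io Γ K v c).coeff π ≠ 0) : ∃ p, π = tau Γ P v (p, mk Q v i) := by
  obtain ⟨a, b, ha, hb, rfl⟩ := Pool.Agent.N506.EX.coeff_mul_ne h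
  obtain ⟨p, rfl⟩ := io_coeff_ne Γ hb
  exact ⟨p, by rw [xx_coeff_ne Γ ha, tau_mul_bb]⟩

theorem NN_de_of_mem {v : V} (b : Matrix (Q v) (Q v) (MonoidAlgebra K (P v))) {s' : St Q}
    (h : v ∈ s'.1) (s : St Q) : DE Γ 0 (NN Γ o v b s' s) := by
  rw [NN_apply]
  refine DE.sum _ fun j _ => ?_
  split_ifs
  · rw [cc, if_pos h]
    exact io_de Γ v _
  · exact DE.zero Γ 0

theorem NN_de_of_notMem {v : V} (b : Matrix (Q v) (Q v) (MonoidAlgebra K (P v))) {s' : St Q}
    (h : v ∉ s'.1) (s : St Q) : DE Γ 1 (NN Γ o v b s' s) := by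
  rw [NN_apply]
  refine DE.sum _ fun j _ => ?_
  split_ifs
  · rw [cc, if_neg h]
    have := (xx_de Γ (K := K) v (s'.2 v)).mul (io_de Γ v (b (o v) j))
    rwa [add_zero] at this
  · exact DE.zero Γ 1

variable {G : V → Type v} [∀ v, Group (G v)]
  (ρ : ∀ v, G v →* Matrix (Q v) (Q v) (MonoidAlgebra K (P v)))

/-- The matrix of a word. -/
noncomputable def Mx (g : GraphProd Γ G) : Matrix (St Q) (St Q) (MonoidAlgebra K (WG Γ P)) :=
  (Rep Γ o ρ g : (Matrix (St Q) (St Q) (MonoidAlgebra K (WG Γ P)))ˣ)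

theorem Mx_one : Mx Γ o ρ 1 = 1 := by
  rw [Mx, map_one]
  rfl

theorem Mx_mul (g h : GraphProd Γ G) : Mx Γ o ρ (g * h) = Mx Γ o ρ g * Mx Γ o ρ h := by
  rw [Mx, map_mul]
  rfl

theorem Mx_gof (v : V) (a : G v) : Mx Γ o ρ (gof Γ G v a) = 1 + NN Γ o v (ρ v a - 1) :=
  (Rep_gof Γ o ρ v a).trans (MM_apply Γ o ρ v a)

/-- The top part of the row of the initial state. -/
noncomputable def RR : List (Σ v, G v) → St Q → MonoidAlgebra K (WG Γ P)
  | [], s => if s = (∅, o) then 1 else 0
  | x :: L, s => ∑ s', if x.1 ∈ s'.1 then 0 else RR L s' * NN Γ o x.1 (ρ x.1 x.2 - 1) s' s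

theorem RR_nil (s : St Q) : RR Γ o ρ [] s = if s = (∅, o) then 1 else 0 := rfl

theorem RR_cons (x : Σ v, G v) (L : List (Σ v, G v)) (s : St Q) :
    RR Γ o ρ (x :: L) s =
      ∑ s', if x.1 ∈ s'.1 then 0 else RR Γ o ρ L s' * NN Γ o x.1 (ρ x.1 x.2 - 1) s' s := rfl

theorem RR_de (L : List (Σ v, G v)) : ∀ s, DE Γ L.length (RR Γ o ρ L s) := by
  induction L with
  | nil =>
    intro s
    rw [RR_nil]
    split_ifs
    · exact DE.one
    · exact DE.zero Γ _
  | cons x L ih =>
    intro s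
    rw [RR_cons]
    refine DE.sum _ fun s' _ => ?_
    split_ifs with h
    · exact DE.zero Γ _
    · have := (ih s').mul (NN_de_of_notMem Γ o (ρ x.1 x.2 - 1) h s)
      rw [List.length_cons]
      push_cast
      exact this

theorem top_part (L : List (Σ v, G v)) :
    ∀ s, DD Γ L.length (Mx Γ o ρ (ev Γ L) (∅, o) s - RR Γ o ρ L s) := by
  induction L with
  | nil =>
    intro s
    rw [ev, Mx_one, RR_nil, Matrix.one_apply]
    by_cases h : s = (∅, o)
    · rw [if_pos h, if_pos h.symm, sub_self]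
      exact DD.zero Γ _
    · rw [if_neg h, if_neg (fun h1 => h h1.symm), sub_self]
      exact DD.zero Γ _
  | cons x L ih =>
    intro s
    rw [ev, Mx_mul, Matrix.mul_apply, RR_cons, ← Finset.sum_sub_distrib, Mx_gof]
    refine DD.sum _ fun s' _ => ?_
    rw [List.length_cons]
    push_cast
    set y := Mx Γ o ρ (ev Γ L) (∅, o) s' with hy
    set r := RR Γ o ρ L s' with hr
    have h1 : DD Γ L.length (y - r) := ih s'
    have h2 : DE Γ L.length r := RR_de Γ o ρ L s'
    have h3 : DD Γ (L.length + 1) y := by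
      have h4 := (h1.mono (by omega : (L.length : ℤ) ≤ L.length + 1)).add
        (h2.dd (by omega : (L.length : ℤ) < L.length + 1))
      rwa [sub_add_cancel] at h4
    by_cases h : x.1 ∈ s'.1
    · rw [if_pos h, sub_zero]
      have h4 : DE Γ 0 ((1 + NN Γ o x.1 (ρ x.1 x.2 - 1)) s' s) := by
        rw [Matrix.add_apply, Matrix.one_apply]
        refine DE.add ?_ (NN_de_of_mem Γ o _ h s)
        split_ifs
        · exact DE.one
        · exact DE.zero Γ _
      have h5 := h3.mul h4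
      rwa [add_zero] at h5
    · rw [if_neg h, Matrix.add_apply, mul_add, add_sub_assoc, ← sub_mul]
      refine DD.add ?_ ?_
      · rw [Matrix.one_apply]
        split_ifs
        · rw [mul_one]
          exact h3
        · rw [mul_zero]
          exact DD.zero Γ _
      · exact h1.mul (NN_de_of_notMem Γ o _ h s)

/-- The top part depends only on the group element and the length. -/
theorem RR_congr {L L' : List (Σ v, G v)} (h : ev Γ L = ev Γ L') (hl : L.length = L'.length) :
    RR Γ o ρ L = RR Γ o ρ L' := by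
  funext s
  rw [← MonoidAlgebra.coeff_inj]
  ext π
  by_cases hd : dg Γ π = L.length
  · have h1 : (Mx Γ o ρ (ev Γ L) (∅, o) s - RR Γ o ρ L s).coeff π = 0 := by
      by_contra h2
      have := top_part Γ o ρ L s π h2
      omega
    have h3 : (Mx Γ o ρ (ev Γ L') (∅, o) s - RR Γ o ρ L' s).coeff π = 0 := by
      by_contra h2
      have := top_part Γ o ρ L' s π h2
      omega
    rw [MonoidAlgebra.coeff_sub, Finsupp.sub_apply, sub_eq_zero] at h1 h3
    rw [← h1, ← h3, h]
  · have h1 : (RR Γ o ρ L s).coeff π = 0 := by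
      by_contra h2
      exact hd (RR_de Γ o ρ L s π h2)
    have h3 : (RR Γ o ρ L' s).coeff π = 0 := by
      by_contra h2
      exact hd ((RR_de Γ o ρ L' s π h2).trans (by rw [hl]))
    rw [h1, h3]

theorem RR_cons_coeff_ne {x : Σ v, G v} {L : List (Σ v, G v)} {s : St Q} {π : WG Γ P}
    (h : (RR Γ o ρ (x :: L) s).coeff π ≠ 0) :
    ∃ (s' : St Q) (π' : WG Γ P) (j : Q x.1) (p : P x.1), x.1 ∉ s'.1 ∧ s = nv Γ x.1 s' j ∧
      (RR Γ o ρ L s').coeff π' ≠ 0 ∧ π = π' * tau Γ P x.1 (p, mk Q x.1 (s'.2 x.1)) := by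
  rw [RR_cons, MonoidAlgebra.coeff_sum, Finsupp.finsetSum_apply] at h
  obtain ⟨s', _, h1⟩ := Finset.exists_ne_zero_of_sum_ne_zero h
  split_ifs at h1 with h2
  · exact absurd rfl h1
  · obtain ⟨π', w, hπ', hw, rfl⟩ := Pool.Agent.N506.EX.coeff_mul_ne h1
    rw [NN_apply, MonoidAlgebra.coeff_sum, Finsupp.finsetSum_apply] at hw
    obtain ⟨j, _, h3⟩ := Finset.exists_ne_zero_of_sum_ne_zero hw
    split_ifs at h3 with h4
    · rw [cc, if_neg h2] at h3
      obtain ⟨p, rfl⟩ := xx_io_coeff_ne Γ h3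
      exact ⟨s', π', j, p, h2, h4, hπ', rfl⟩
    · exact absurd rfl h3

theorem RR_inv (L : List (Σ v, G v)) : ∀ (s : St Q) (π : WG Γ P),
    (RR Γ o ρ L s).coeff π ≠ 0 → Past Γ π ∧ s.1 = Term Γ π := by
  classical
  induction L with
  | nil =>
    intro s π h
    rw [RR_nil] at h
    split_ifs at h with h1
    · rw [MonoidAlgebra.one_def, MonoidAlgebra.coeff_single, Finsupp.single_apply] at h
      split_ifs at h with h2
      · rw [← h2, h1]
        exact ⟨past_one Γ, (Term_one Γ).symm⟩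
      · exact absurd rfl h
    · exact absurd rfl h
  | cons x L ih =>
    intro s π h
    obtain ⟨s', π', j, p, h1, h2, h3, h4⟩ := RR_cons_coeff_ne Γ o ρ h
    obtain ⟨h5, h6⟩ := ih s' π' h3
    rw [h4]
    refine ⟨h5.mul_tau Γ x.1 _, ?_⟩
    rw [Term_mul_tau Γ h5 x.1 _ (fun h7 => mk_ne_one x.1 (s'.2 x.1) (congrArg Prod.snd h7)), ← h6,
      h2]
    change step Γ x.1 s'.1 = _
    rw [step, if_neg h1]

theorem RR_term (L : List (Σ v, G v)) : ∀ (s : St Q) (π : WG Γ P),
    (RR Γ o ρ L s).coeff π ≠ 0 → ∀ v ∈ s.1, ∃ (L' : List (Σ v, G v)) (g : G v),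
      ev Γ L = ev Γ L' * gof Γ G v g ∧ L'.length + 1 = L.length := by
  induction L with
  | nil =>
    intro s π h v hv
    rw [RR_nil] at h
    split_ifs at h with h1
    · rw [h1] at hv
      exact absurd hv (Finset.notMem_empty v)
    · exact absurd rfl h
  | cons x L ih =>
    intro s π h v hv
    obtain ⟨s', π', j, p, h1, h2, h3, h4⟩ := RR_cons_coeff_ne Γ o ρ h
    by_cases hvx : v = x.1
    · subst hvx
      exact ⟨L, x.2, rfl, rfl⟩
    · have h5 : v ∈ step Γ x.1 s'.1 := by rw [h2] at hv; exact hv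
      rw [step, if_neg h1, Finset.mem_insert, Finset.mem_filter] at h5
      obtain ⟨h6, h7⟩ := h5.resolve_left hvx
      obtain ⟨L', g, h8, h9⟩ := ih s' π' h3 v h6
      refine ⟨x :: L', g, ?_, by rw [List.length_cons, List.length_cons, h9]⟩
      rw [ev, ev, h8, mul_assoc, mul_assoc, (gof_comm Γ h7 x.2 g).eq]

/-- The coefficients of a product with a recording step. -/
theorem coeff_mul_xx_io (y : MonoidAlgebra K (WG Γ P)) (hy : ∀ π, y.coeff π ≠ 0 → Past Γ π)
    (v : V) (i i' : Q v) (c : MonoidAlgebra K (P v)) {π : WG Γ P} (hπ : Past Γ π) (p : P v) :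
    (y * (xx Γ P K v i' * io Γ K v c)).coeff (π * tau Γ P v (p, mk Q v i)) =
      if i' = i then y.coeff π * c.coeff p else 0 := by
  classical
  induction c using MonoidAlgebra.induction_linear with
  | zero =>
    rw [map_zero, mul_zero, mul_zero]
    change (0 : K) = if i' = i then _ * 0 else 0
    rw [mul_zero, ite_self]
  | add c c' hc hc' =>
    rw [map_add, mul_add, mul_add, MonoidAlgebra.coeff_add, Finsupp.add_apply, hc, hc',
      MonoidAlgebra.coeff_add, Finsupp.add_apply]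
    split_ifs
    · rw [mul_add]
    · rw [add_zero]
  | single p' a =>
    have h1 : xx Γ P K v i' * io Γ K v (MonoidAlgebra.single p' a) =
        MonoidAlgebra.single (tau Γ P v (p', mk Q v i')) a := by
      change xx Γ P K v i' * MonoidAlgebra.mapDomain _ _ = _
      rw [MonoidAlgebra.mapDomain_single, xx, MonoidAlgebra.single_mul_single, one_mul]
      congr 1
      exact tau_mul_bb Γ v p' _
    rw [h1, MonoidAlgebra.coeff_mul_single_apply, MonoidAlgebra.coeff_single, Finsupp.single_apply]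
    by_cases h2 : p' = p ∧ i' = i
    · obtain ⟨rfl, rfl⟩ := h2
      rw [if_pos rfl, if_pos rfl, mul_inv_cancel_right]
    · have h3 : y.coeff (π * tau Γ P v (p, mk Q v i) * (tau Γ P v (p', mk Q v i'))⁻¹) = 0 := by
        by_contra h4
        have h5 := (tau_inj Γ (hy _ h4) hπ (a := (p', mk Q v i')) (a' := (p, mk Q v i))
          (by rw [inv_mul_cancel_right])).2
        exact h2 ⟨congrArg Prod.fst h5, mk_injective v (congrArg Prod.snd h5)⟩
      rw [h3, zero_mul]
      by_cases h6 : i' = i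
      · rw [if_pos h6, if_neg (fun h7 => h2 ⟨h7, h6⟩), mul_zero]
      · rw [if_neg h6]

/-- The peeling formula. -/
theorem RR_peel {v : V} (g : G v) (L : List (Σ v, G v)) (s' : St Q) (hs' : v ∉ s'.1)
    {π : WG Γ P} (hπ : Past Γ π) (hT : Term Γ π = s'.1) (j : Q v) (p : P v) :
    (RR Γ o ρ (⟨v, g⟩ :: L) (nv Γ v s' j)).coeff (π * tau Γ P v (p, mk Q v (s'.2 v))) =
      (RR Γ o ρ L s').coeff π * ((ρ v g - 1) (o v) j).coeff p := by
  rw [RR_cons, MonoidAlgebra.coeff_sum, Finsupp.finsetSum_apply]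
  have hterm : ∀ s'' : St Q, v ∉ s''.1 → ∀ k : Q v,
      (RR Γ o ρ L s'' * (if nv Γ v s' j = nv Γ v s'' k then
        cc Γ o v (ρ v g - 1) s'' k else 0)).coeff (π * tau Γ P v (p, mk Q v (s'.2 v))) =
      if s'' = s' ∧ k = j then (RR Γ o ρ L s').coeff π * ((ρ v g - 1) (o v) j).coeff p else 0 := by
    intro s'' h1 k
    by_cases h2 : nv Γ v s' j = nv Γ v s'' k
    · rw [if_pos h2, cc, if_neg h1,
        coeff_mul_xx_io Γ _ (fun π hπ => (RR_inv Γ o ρ L s'' π hπ).1) v (s'.2 v) (s''.2 v) _ hπ p]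
      have h3 : Function.update s'.2 v j = Function.update s''.2 v k := congrArg Prod.snd h2
      have h4 : j = k := by
        have := congrFun h3 v
        rwa [Function.update_self, Function.update_self] at this
      by_cases h5 : s'' = s'
      · rw [if_pos (show s''.2 v = s'.2 v by rw [h5]), if_pos ⟨h5, h4.symm⟩, h5, h4]
      · rw [if_neg (c := s'' = s' ∧ k = j) (fun h6 => h5 h6.1)]
        split_ifs with h6
        · have h7 : (RR Γ o ρ L s'').coeff π = 0 := by
            by_contra h8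
            apply h5
            refine Prod.ext ((RR_inv Γ o ρ L s'' π h8).2.trans hT) ?_
            funext u
            by_cases hu : u = v
            · rw [hu]
              exact h6
            · have := congrFun h3 u
              rw [Function.update_of_ne hu, Function.update_of_ne hu] at this
              exact this.symm
          rw [h7, zero_mul]
        · rfl
    · rw [if_neg h2, mul_zero, if_neg]
      · rfl
      · rintro ⟨rfl, rfl⟩
        exact h2 rfl
  rw [Finset.sum_eq_single s']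
  · rw [if_neg hs', NN_apply, Finset.mul_sum, MonoidAlgebra.coeff_sum, Finsupp.finsetSum_apply,
      Finset.sum_congr rfl fun k _ => hterm s' hs' k, Finset.sum_eq_single j]
    · rw [if_pos ⟨rfl, rfl⟩]
    · intro k _ hk
      rw [if_neg (fun h => hk h.2)]
    · intro h
      exact absurd (Finset.mem_univ _) h
  · intro s'' _ h1
    split_ifs with h2
    · rfl
    · rw [NN_apply, Finset.mul_sum, MonoidAlgebra.coeff_sum, Finsupp.finsetSum_apply]
      refine Finset.sum_eq_zero fun k _ => ?_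
      rw [hterm s'' h2 k, if_neg (fun h => h1 h.1)]
  · intro h
    exact absurd (Finset.mem_univ _) h

end Pool.Agent.U563.GP
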