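import Pool.Agent.U563.GP.D

/-!
# The representation is faithful on the group ring
-/

namespace Pool.Agent.U563.GP

open MonoidAlgebra

set_option linter.unusedSectionVars false
universe u v w

variable {V : Type u} [DecidableEq V] [Fintype V] (Γ : SimpleGraph V) [DecidableRel Γ.Adj]
  {P : V → Type u} [∀ v, Group (P v)] {Q : V → Type u} [∀ v, Fintype (Q v)]
  [∀ v, DecidableEq (Q v)] (o : ∀ v, Q v) {K : Type u} [Field K]
  {G : V → Type v} [∀ v, Group (G v)]
  (ρ : ∀ v, G v →* Matrix (Q v) (Q v) (MonoidAlgebra K (P v)))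

theorem coeff_sum_smul {ι : Type*} {W : Type u} [Group W] (T : Finset ι) (c : ι → K)
    (f : ι → MonoidAlgebra K W) (π : W) :
    (∑ w ∈ T, c w • f w).coeff π = ∑ w ∈ T, c w * (f w).coeff π := by
  rw [MonoidAlgebra.coeff_sum, Finsupp.finsetSum_apply]
  exact Finset.sum_congr rfl fun w _ => by
    rw [MonoidAlgebra.coeff_smul, Finsupp.smul_apply, smul_eq_mul]

/-- Independence of the rows. -/
theorem ind (hρ : ∀ v (c : G v →₀ K), (∀ j, c.sum (fun g a => a • ρ v g (o v) j) = 0) → c = 0)
    (n : ℕ) : ∀ (T : Finset (GraphProd Γ G)) (Lw : GraphProd Γ G → List (Σ v, G v)),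
    (∀ w ∈ T, ev Γ (Lw w) = w ∧ (Lw w).length = n ∧ ∀ L', ev Γ L' = w → n ≤ L'.length) →
    ∀ c : GraphProd Γ G → K, (∀ s, ∑ w ∈ T, c w • RR Γ o ρ (Lw w) s = 0) → ∀ w ∈ T, c w = 0 := by
  classical
  induction n with
  | zero =>
    intro T Lw hT c hc w hw
    have h0 : ∀ w' ∈ T, Lw w' = [] := fun w' hw' => List.eq_nil_of_length_eq_zero (hT w' hw').2.1
    have h1 : ∀ w' ∈ T, w' = 1 := fun w' hw' => by
      rw [← (hT w' hw').1, h0 w' hw', ev]
    have h2 : (∑ w ∈ T, c w • RR Γ o ρ (Lw w) (∅, o)).coeff 1 = 0 := by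
      rw [hc]
      rfl
    rw [coeff_sum_smul, Finset.sum_eq_single w] at h2
    · rw [h0 w hw, RR_nil, if_pos rfl, MonoidAlgebra.one_def, MonoidAlgebra.coeff_single,
        Finsupp.single_eq_same, mul_one] at h2
      exact h2
    · intro w' hw' hne
      exact absurd ((h1 w' hw').trans (h1 w hw).symm) hne
    · intro h
      exact absurd hw h
  | succ n ih =>
    intro T Lw hT c hc w0 hw0
    by_contra hc0
    obtain ⟨x0, L0, hL0⟩ : ∃ x0 L0, Lw w0 = x0 :: L0 := by
      cases h : Lw w0 with
      | nil =>
        have := (hT w0 hw0).2.1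
        rw [h] at this
        exact absurd this (by simp)
      | cons x L => exact ⟨x, L, rfl⟩
    set v := x0.1 with hv
    -- the elements with terminal vertex `v`
    let Wv : Finset (GraphProd Γ G) := T.filter fun w => ∃ (L' : List (Σ v, G v)) (g : G v),
      w = ev Γ L' * gof Γ G v g ∧ L'.length = n
    have hWv : ∀ w ∈ Wv, w ∈ T ∧ ∃ (L' : List (Σ v, G v)) (g : G v),
        w = ev Γ L' * gof Γ G v g ∧ L'.length = n := fun w hw => Finset.mem_filter.mp hw
    have hw0v : w0 ∈ Wv := by
      refine Finset.mem_filter.mpr ⟨hw0, L0, x0.2, ?_, ?_⟩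
      · rw [← (hT w0 hw0).1, hL0, ev]
      · have := (hT w0 hw0).2.1
        rw [hL0, List.length_cons] at this
        omega
    have hch : ∀ w, ∃ (L' : List (Σ v, G v)) (g : G v), w ∈ Wv →
        w = ev Γ L' * gof Γ G v g ∧ L'.length = n := by
      intro w
      by_cases hw : w ∈ Wv
      · obtain ⟨L', g, h⟩ := (hWv w hw).2
        exact ⟨L', g, fun _ => h⟩
      · exact ⟨[], 1, fun h => absurd h hw⟩
    choose Lp gp hLg using hch
    have hev : ∀ w ∈ Wv, ev Γ (⟨v, gp w⟩ :: Lp w) = w := fun w hw => by
      rw [ev]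
      exact (hLg w hw).1.symm
    have hmin : ∀ w ∈ Wv, ∀ L', ev Γ L' = w → n + 1 ≤ L'.length := fun w hw =>
      (hT w (hWv w hw).1).2.2
    have hgp : ∀ w ∈ Wv, gp w ≠ 1 := by
      intro w hw h
      have h1 := (hLg w hw).1
      rw [h, map_one, mul_one] at h1
      have := hmin w hw (Lp w) h1.symm
      rw [(hLg w hw).2] at this
      omega
    -- the rows vanish at the states with `v` marked
    have claim1 : ∀ s, ∑ w ∈ Wv, c w • RR Γ o ρ (⟨v, gp w⟩ :: Lp w) s = 0 := by
      intro s
      by_cases hs : v ∈ s.1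
      · rw [← hc s]
        symm
        rw [← Finset.sum_subset (Finset.filter_subset _ T : Wv ⊆ T)]
        · refine Finset.sum_congr rfl fun w hw => ?_
          rw [RR_congr Γ o ρ (L := Lw w) (L' := ⟨v, gp w⟩ :: Lp w)]
          · rw [hev w hw, (hT w (hWv w hw).1).1]
          · rw [(hT w (hWv w hw).1).2.1, List.length_cons, (hLg w hw).2]
        · intro w hwT hwW
          have : RR Γ o ρ (Lw w) s = 0 := by
            rw [← MonoidAlgebra.coeff_eq_zero]
            ext π
            by_contra h1
            obtain ⟨L', g, h2, h3⟩ := RR_term Γ o ρ (Lw w) s π h1 v hs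
            apply hwW
            refine Finset.mem_filter.mpr ⟨hwT, L', g, ?_, ?_⟩
            · rw [← h2, (hT w hwT).1]
            · rw [(hT w hwT).2.1] at h3
              omega
          rw [this, smul_zero]
      · refine Finset.sum_eq_zero fun w _ => ?_
        have : RR Γ o ρ (⟨v, gp w⟩ :: Lp w) s = 0 := by
          rw [← MonoidAlgebra.coeff_eq_zero]
          ext π
          by_contra h1
          obtain ⟨s', π', j, p, h2, h3, h4, h5⟩ := RR_cons_coeff_ne Γ o ρ h1
          apply hs
          rw [h3]
          exact mem_step Γ v s'.1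
        rw [this, smul_zero]
    -- peeling
    have claim2 : ∀ s' : St Q, v ∉ s'.1 → ∀ π, Past Γ π → Term Γ π = s'.1 → ∀ g : G v, g ≠ 1 →
        ∑ w ∈ Wv.filter (fun w => gp w = g), c w * (RR Γ o ρ (Lp w) s').coeff π = 0 := by
      intro s' hs' π hπ hTπ g hg
      let d : G v →₀ K := ∑ w ∈ Wv, Finsupp.single (gp w) (c w * (RR Γ o ρ (Lp w) s').coeff π)
      let e : K := ∑ w ∈ Wv, c w * (RR Γ o ρ (Lp w) s').coeff π
      have hd : ∀ j, d.sum (fun g a => a • ρ v g (o v) j) =
          ∑ w ∈ Wv, (c w * (RR Γ o ρ (Lp w) s').coeff π) • ρ v (gp w) (o v) j := by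
        intro j
        simp only [d]
        rw [← Finsupp.sum_finsetSum_index]
        · refine Finset.sum_congr rfl fun w _ => ?_
          rw [Finsupp.sum_single_index]
          exact zero_smul _ _
        · intro g
          exact zero_smul _ _
        · intro g a b
          exact add_smul _ _ _
      have hzero : d - Finsupp.single 1 e = 0 := by
        apply hρ v
        intro j
        have hs1 : (Finsupp.single (1 : G v) e).sum (fun g a => a • ρ v g (o v) j) =
          e • ρ v 1 (o v) j := Finsupp.sum_single_index (zero_smul _ _)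
        rw [Finsupp.sum_sub_index (fun g a b => sub_smul _ _ _), hd j, hs1]
        rw [← MonoidAlgebra.coeff_eq_zero]
        ext p
        have h1 : (∑ w ∈ Wv, c w • RR Γ o ρ (⟨v, gp w⟩ :: Lp w) (nv Γ v s' j)).coeff
            (π * tau Γ P v (p, mk Q v (s'.2 v))) = 0 := by
          rw [claim1]
          rfl
        rw [coeff_sum_smul] at h1
        rw [MonoidAlgebra.coeff_sub, Finsupp.sub_apply, coeff_sum_smul, MonoidAlgebra.coeff_smul,
          Finsupp.smul_apply, smul_eq_mul, Finset.sum_mul, ← Finset.sum_sub_distrib]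
        refine Eq.trans (Finset.sum_congr rfl fun w _ => ?_) h1
        rw [RR_peel Γ o ρ (gp w) (Lp w) s' hs' hπ hTπ j p, Matrix.sub_apply,
          MonoidAlgebra.coeff_sub, Finsupp.sub_apply, map_one]
        ring
      have h3 : d g = 0 := by
        have h4 := congrArg (fun x : G v →₀ K => x g) hzero
        simp only [Finsupp.sub_apply, Finsupp.coe_zero, Pi.zero_apply] at h4
        rw [Finsupp.single_eq_of_ne (Ne.symm hg.symm), sub_zero] at h4
        exact h4
      rw [Finset.sum_filter]
      refine Eq.trans ?_ h3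
      simp only [d]
      rw [Finsupp.finsetSum_apply]
      refine Finset.sum_congr rfl fun w _ => ?_
      rw [Finsupp.single_apply]
    have claim3 : ∀ g : G v, ∀ s' : St Q,
        ∑ w ∈ Wv.filter (fun w => gp w = g), c w • RR Γ o ρ (Lp w) s' = 0 := by
      intro g s'
      by_cases hg : g = 1
      · refine Finset.sum_eq_zero fun w hw => ?_
        rw [Finset.mem_filter] at hw
        exact absurd (hw.2.trans hg) (hgp w hw.1)
      · by_cases hs' : v ∈ s'.1
        · refine Finset.sum_eq_zero fun w hw => ?_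
          rw [Finset.mem_filter] at hw
          have : RR Γ o ρ (Lp w) s' = 0 := by
            rw [← MonoidAlgebra.coeff_eq_zero]
            ext π
            by_contra h1
            obtain ⟨L', h, h2, h3⟩ := RR_term Γ o ρ (Lp w) s' π h1 v hs'
            have h4 : ev Γ (⟨v, h * gp w⟩ :: L') = w := by
              rw [ev, map_mul, ← mul_assoc, ← h2]
              exact (hLg w hw.1).1.symm
            have h5 := hmin w hw.1 _ h4
            rw [List.length_cons] at h5
            have h6 := (hLg w hw.1).2
            omega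
          rw [this, smul_zero]
        · rw [← MonoidAlgebra.coeff_eq_zero]
          ext π
          rw [coeff_sum_smul, Finsupp.coe_zero, Pi.zero_apply]
          by_cases hπ : Past Γ π ∧ Term Γ π = s'.1
          · exact claim2 s' hs' π hπ.1 hπ.2 g hg
          · refine Finset.sum_eq_zero fun w _ => ?_
            have : (RR Γ o ρ (Lp w) s').coeff π = 0 := by
              by_contra h1
              obtain ⟨h2, h3⟩ := RR_inv Γ o ρ (Lp w) s' π h1
              exact hπ ⟨h2, h3.symm⟩
            rw [this, mul_zero]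
    -- the induction
    let g0 : G v := gp w0
    let T' : Finset (GraphProd Γ G) :=
      (Wv.filter (fun w => gp w = g0)).image fun w => w * (gof Γ G v g0)⁻¹
    have hfin := ih T' (fun w' => Lp (w' * gof Γ G v g0)) (by
      intro w' hw'
      obtain ⟨w, hw, rfl⟩ := Finset.mem_image.mp hw'
      rw [Finset.mem_filter] at hw
      simp only [inv_mul_cancel_right]
      refine ⟨?_, (hLg w hw.1).2, ?_⟩
      · rw [eq_mul_inv_iff_mul_eq, ← hw.2]
        exact (hLg w hw.1).1.symm
      · intro L' hL'
        have h1 := hmin w hw.1 (⟨v, g0⟩ :: L') (by rw [ev, hL']; exact inv_mul_cancel_right _ _)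
        rw [List.length_cons] at h1
        omega) (fun w' => c (w' * gof Γ G v g0)) (by
      intro s
      rw [Finset.sum_image (by
        intro a _ b _ hab
        exact mul_right_cancel hab)]
      simp only [inv_mul_cancel_right]
      exact claim3 g0 s) (w0 * (gof Γ G v g0)⁻¹) (Finset.mem_image_of_mem _
        (Finset.mem_filter.mpr ⟨hw0v, rfl⟩))
    simp only [inv_mul_cancel_right] at hfin
    exact hc0 hfin

/-- The representation is faithful on the group ring, and even its first row is. -/
theorem row_faithful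
    (hρ : ∀ v (c : G v →₀ K), (∀ j, c.sum (fun g a => a • ρ v g (o v) j) = 0) → c = 0)
    (c : GraphProd Γ G →₀ K)
    (hc : ∀ s, c.sum (fun g a => a • Mx Γ o ρ g (∅, o) s) = 0) : c = 0 := by
  classical
  by_contra hne
  have hmin : ∀ g : GraphProd Γ G, ∃ L, ev Γ L = g ∧ ∀ L', ev Γ L' = g → L.length ≤ L'.length := by
    intro g
    have hex : ∃ n, ∃ L, ev Γ L = g ∧ L.length = n := by
      obtain ⟨L, hL⟩ := ev_surjective Γ g
      exact ⟨_, L, hL, rfl⟩
    obtain ⟨L, h1, h2⟩ := Nat.find_spec hex
    exact ⟨L, h1, fun L' hL' => h2 ▸ Nat.find_min' hex ⟨L', hL', rfl⟩⟩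
  choose Lm hL1 hL2 using hmin
  have hsup : c.support.Nonempty := Finsupp.support_nonempty_iff.mpr hne
  obtain ⟨w0, hw0, hmax⟩ := Finset.exists_max_image c.support (fun g => (Lm g).length) hsup
  set n := (Lm w0).length with hn
  have h := ind Γ o ρ hρ n (c.support.filter fun g => (Lm g).length = n) Lm (by
    intro w hw
    rw [Finset.mem_filter] at hw
    exact ⟨hL1 w, hw.2, fun L' hL' => hw.2 ▸ hL2 w L' hL'⟩) c (by
    intro s
    rw [← MonoidAlgebra.coeff_eq_zero]
    ext π
    rw [coeff_sum_smul, Finsupp.coe_zero, Pi.zero_apply, Finset.sum_filter]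
    by_cases hd : dg Γ π = n
    · have h1 : (c.sum (fun g a => a • Mx Γ o ρ g (∅, o) s)).coeff π = 0 := by
        rw [hc]
        rfl
      rw [Finsupp.sum, coeff_sum_smul] at h1
      refine Eq.trans (Finset.sum_congr rfl fun w hw => ?_) h1
      have h2 := top_part Γ o ρ (Lm w) s π
      rw [hL1 w] at h2
      have h3 : (Lm w).length ≤ n := hmax w hw
      have h4 : (Mx Γ o ρ w (∅, o) s - RR Γ o ρ (Lm w) s).coeff π = 0 := by
        by_contra h5
        have := h2 h5
        omega
      rw [MonoidAlgebra.coeff_sub, Finsupp.sub_apply, sub_eq_zero] at h4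
      rw [h4]
      split_ifs with h5
      · rfl
      · have h6 : (RR Γ o ρ (Lm w) s).coeff π = 0 := by
          by_contra h7
          have := RR_de Γ o ρ (Lm w) s π h7
          omega
        rw [h6, mul_zero]
    · refine Finset.sum_eq_zero fun w _ => ?_
      split_ifs with h5
      · have h6 : (RR Γ o ρ (Lm w) s).coeff π = 0 := by
          by_contra h7
          have := RR_de Γ o ρ (Lm w) s π h7
          rw [h5] at this
          exact hd this
        rw [h6, mul_zero]
      · rfl) w0 (Finset.mem_filter.mpr ⟨hw0, rfl⟩)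
  exact (Finsupp.mem_support_iff.mp hw0) h

end Pool.Agent.U563.GP
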