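import Pool.Agent.U563.GP.B
import Pool.Agent.N506.EYM

/-!
# The target group is poly-(torsion-free abelian)
-/

namespace Pool.Agent.U563.GP

open Pool.Agent.N506.EX

set_option linter.unusedSectionVars false
universe u v w

theorem polyTFA_pi_const {G : Type u} [Group G] (h : PolyTFA G) :
    ∀ ι : Type u, PolyTFA (ι → G) := by
  induction h with
  | triv G => exact fun ι => PolyTFA.triv _
  | ext G H φ _ ih =>
    intro ι
    let ψ : (ι → G) →* (ι → H) :=
      { toFun := fun f i => φ (f i)
        map_one' := funext fun _ => map_one φ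
        map_mul' := fun f g => funext fun _ => map_mul φ _ _ }
    refine PolyTFA.ext (ι → G) (ι → H) ψ ?_
    refine (ih ι).of_injective _
      { toFun := fun f i => ⟨(f : ι → G) i, congrFun f.2 i⟩
        map_one' := rfl
        map_mul' := fun f g => rfl } ?_
    intro f g hfg
    apply Subtype.ext
    funext i
    exact congrArg Subtype.val (congrFun hfg i)

theorem polyTFA_pi_fin {V : Type u} [Finite V] : ∀ (G : V → Type u) [∀ v, Group (G v)],
    (∀ v, PolyTFA (G v)) → PolyTFA (∀ v, G v) := by
  refine Finite.induction_empty_option (P := fun V : Type u => ∀ (G : V → Type u)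
    [∀ v, Group (G v)], (∀ v, PolyTFA (G v)) → PolyTFA (∀ v, G v)) ?_ ?_ ?_ V
  · intro V W e h G _ hG
    refine (h (fun v => G (e v)) (fun v => hG (e v))).of_injective _
      { toFun := fun f v => f (e v)
        map_one' := rfl
        map_mul' := fun _ _ => rfl } ?_
    intro f g hfg
    funext w
    obtain ⟨v, rfl⟩ := e.surjective w
    exact congrFun hfg v
  · intro G _ _
    have : Subsingleton (∀ v, G v) := inferInstance
    exact PolyTFA.triv _
  · intro V _ h G _ hG
    refine ((hG none).prod (h (fun v => G (some v)) (fun v => hG (some v)))).of_injective _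
      { toFun := fun f => (f none, fun v => f (some v))
        map_one' := rfl
        map_mul' := fun _ _ => rfl } ?_
    intro f g hfg
    funext w
    cases w with
    | none => exact congrArg Prod.fst hfg
    | some v => exact congrFun (congrArg Prod.snd hfg) v

theorem polyTFA_WG {V : Type u} [DecidableEq V] [Fintype V] (Γ : SimpleGraph V)
    [DecidableRel Γ.Adj] {P : V → Type u} [∀ v, Group (P v)] (hP : ∀ v, PolyTFA (P v)) :
    PolyTFA (WG Γ P) := by
  have h0 : ∀ v, PolyTFA (P v × Multiplicative ℤ) := by
    intro v
    have h1 : PolyTFA (ULift.{u} (Multiplicative ℤ)) := PolyTFA.comm _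
    refine ((hP v).prod h1).of_injective _
      { toFun := fun x => (x.1, ULift.up x.2)
        map_one' := rfl
        map_mul' := fun _ _ => rfl } ?_
    intro x y hxy
    have h2 : ((x.1, ULift.up x.2) : P v × ULift.{u} (Multiplicative ℤ)) =
      (y.1, ULift.up y.2) := hxy
    obtain ⟨e1, e2⟩ := Prod.mk.inj h2
    exact Prod.ext e1 (ULift.up_injective e2)
  have hB : PolyTFA (Base P) :=
    polyTFA_pi_fin (fun v => (V → ℤ) → P v × Multiplicative ℤ)
      (fun v => polyTFA_pi_const (h0 v) (V → ℤ))
  have h1 : PolyTFA (Multiplicative (V → ℤ)) := PolyTFA.comm _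
  refine h1.extension _ SemidirectProduct.rightHom ?_
  have h3 : ∀ g : (SemidirectProduct.rightHom (φ := act Γ P)).ker, (g : WG Γ P).right = 1 :=
    fun g => g.2
  refine hB.of_injective _
    { toFun := fun g => (g : WG Γ P).left
      map_one' := rfl
      map_mul' := fun a b => ?_ } ?_
  · change (a : WG Γ P).left * (act Γ P (a : WG Γ P).right) (b : WG Γ P).left = _
    rw [h3 a, map_one]
    rfl
  · intro a b hab
    exact Subtype.ext (SemidirectProduct.ext hab ((h3 a).trans (h3 b).symm))

end Pool.Agent.U563.GP
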