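import Pool.Agent.U563.GP.E
import Pool.Agent.U563.GP.F
import Pool.Agent.N506.EYN

/-!
# Closure properties
-/

namespace Pool.Agent.U563.GP

open MonoidAlgebra Pool.Agent.N506.EX

set_option linter.unusedSectionVars false
universe u v w

/-- Groups with a matrix representation over the group ring of a poly-(torsion-free abelian) group
such that the first rows of the matrices are linearly independent. -/
def QE (K : Type u) [Field K] (G : Type v) [Group G] : Prop :=
  ∃ (P : Type u) (_ : Group P) (Q : Type u) (_ : Fintype Q) (_ : DecidableEq Q) (o : Q)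
    (ρ : G →* Matrix Q Q (MonoidAlgebra K P)), PolyTFA P ∧
    ∀ c : G →₀ K, (∀ j, c.sum (fun g a => a • ρ g o j) = 0) → c = 0

theorem QE.sub {K : Type u} [Field K] {G : Type v} [Group G] {H : Type w} [Group H] (h : QE K H)
    (f : G →* H) (hf : Function.Injective f) : QE K G := by
  classical
  obtain ⟨P, _, Q, _, _, o, ρ, hP, h⟩ := h
  refine ⟨P, inferInstance, Q, inferInstance, inferInstance, o, ρ.comp f, hP, ?_⟩
  intro c hc
  apply Finsupp.mapDomain_injective hf
  rw [Finsupp.mapDomain_zero]
  apply h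
  intro j
  have e := Finsupp.sum_mapDomain_index (f := f) (s := c) (h := fun g a => a • ρ g o j)
    (fun _ => zero_smul _ _) (fun _ _ _ => add_smul _ _ _)
  exact e.trans (hc j)

theorem QE.poly (K : Type u) [Field K] {G : Type u} [Group G] (h : PolyTFA G) : QE K G := by
  classical
  refine ⟨G, inferInstance, PUnit.{u+1}, inferInstance, inferInstance, PUnit.unit,
    (Matrix.scalar PUnit.{u+1} : MonoidAlgebra K G →+* _).toMonoidHom.comp
      (MonoidAlgebra.of K G), h, ?_⟩
  intro c hc
  have h1 := hc PUnit.unit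
  have h2 : ∀ (g : G) (a : K), a • (((Matrix.scalar PUnit.{u+1} :
      MonoidAlgebra K G →+* _).toMonoidHom.comp (MonoidAlgebra.of K G)) g)
        PUnit.unit PUnit.unit = MonoidAlgebra.single g a := by
    intro g a
    change a • (Matrix.diagonal (fun _ => MonoidAlgebra.single g (1 : K)) :
      Matrix PUnit.{u+1} PUnit.{u+1} (MonoidAlgebra K G)) PUnit.unit PUnit.unit = _
    rw [Matrix.diagonal_apply_eq, MonoidAlgebra.smul_single, smul_eq_mul, mul_one]
  simp only [h2] at h1
  ext g
  have h3 := congrArg (fun x : MonoidAlgebra K G => x.coeff g) h1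
  simp only [Finsupp.sum, MonoidAlgebra.coeff_sum, Finsupp.finsetSum_apply,
    MonoidAlgebra.coeff_single, Finsupp.single_apply, Finset.sum_ite_eq',
    MonoidAlgebra.coeff_zero, Finsupp.coe_zero, Pi.zero_apply] at h3
  by_cases hg : g ∈ c.support
  · rw [if_pos hg] at h3
    exact h3
  · exact Finsupp.notMem_support_iff.mp hg

/-- Faithful representations of group rings. -/
theorem QE.of_algHom {K : Type u} [Field K] {G : Type v} [Group G] {P : Type u} [Group P]
    (hP : PolyTFA P) {Q : Type u} [Fintype Q] [DecidableEq Q] (o : Q)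
    (f : MonoidAlgebra K G →ₐ[K] Matrix Q Q (MonoidAlgebra K P))
    (hf : ∀ x, (∀ j, f x o j = 0) → x = 0) : QE K G := by
  refine ⟨P, inferInstance, Q, inferInstance, inferInstance, o,
    (f : MonoidAlgebra K G →* Matrix Q Q (MonoidAlgebra K P)).comp (MonoidAlgebra.of K G), hP, ?_⟩
  intro c hc
  have h1 : MonoidAlgebra.ofCoeff c = 0 := by
    apply hf
    intro j
    have h2 : MonoidAlgebra.ofCoeff c =
        c.sum fun g a => a • (MonoidAlgebra.of K G g) := by
      conv_lhs => rw [← MonoidAlgebra.sum_coeff_single (MonoidAlgebra.ofCoeff c)]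
      rw [MonoidAlgebra.coeff_ofCoeff]
      refine Finsupp.sum_congr fun g _ => ?_
      rw [MonoidAlgebra.of_apply, MonoidAlgebra.smul_single, smul_eq_mul, mul_one]
    rw [h2, Finsupp.sum, map_sum, Matrix.sum_apply]
    refine Eq.trans (Finset.sum_congr rfl fun g _ => ?_) (hc j)
    rw [map_smul]
    rfl
  have h3 := congrArg MonoidAlgebra.coeff h1
  rw [MonoidAlgebra.coeff_ofCoeff] at h3
  exact h3

theorem QE.exists_algHom {K : Type u} [Field K] {G : Type v} [Group G] (h : QE K G) :
    ∃ (P : Type u) (_ : Group P) (Q : Type u) (_ : Fintype Q) (_ : DecidableEq Q) (o : Q)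
    (f : MonoidAlgebra K G →ₐ[K] Matrix Q Q (MonoidAlgebra K P)), PolyTFA P ∧
    ∀ x, (∀ j, f x o j = 0) → x = 0 := by
  obtain ⟨P, _, Q, _, _, o, ρ, hP, h⟩ := h
  refine ⟨P, inferInstance, Q, inferInstance, inferInstance, o,
    MonoidAlgebra.lift K _ G ρ, hP, ?_⟩
  intro x hx
  rw [← MonoidAlgebra.coeff_eq_zero]
  apply h
  intro j
  rw [← hx j, MonoidAlgebra.lift_apply, Finsupp.sum, Finsupp.sum, Matrix.sum_apply]
  rfl

theorem cosetRep_row {k : Type u} [CommRing k] {G : Type u} [Group G] (H : Subgroup G)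
    [Fintype (G ⧸ H)] (q' : G ⧸ H) (x : MonoidAlgebra k G)
    (hx : ∀ q, cosetRep k H x q' q = 0) : x = 0 := by
  classical
  rw [← MonoidAlgebra.coeff_eq_zero]
  ext g
  let q : G ⧸ H := QuotientGroup.mk (g⁻¹ * q'.out)
  have hq' : q'.out⁻¹ * g * q.out ∈ H := by
    have h1 : (g⁻¹ * q'.out)⁻¹ * q.out ∈ H := by
      apply QuotientGroup.eq.mp
      exact (QuotientGroup.out_eq' _).symm
    rwa [mul_inv_rev, inv_inv] at h1
  have h1 := hx q
  rw [cosetRep, MonoidAlgebra.lift_apply, Finsupp.sum, Matrix.sum_apply] at h1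
  have h2 := congrArg (fun y : MonoidAlgebra k H => y.coeff ⟨_, hq'⟩) h1
  simp only [MonoidHom.coe_mk, OneHom.coe_mk, MonoidAlgebra.coeff_sum, Finsupp.finsetSum_apply,
    Matrix.smul_apply, Matrix.of_apply, MonoidAlgebra.coeff_smul, Finsupp.smul_apply,
    MonoidAlgebra.coeff_zero, Finsupp.coe_zero, Pi.zero_apply] at h2 ⊢
  have h3 : ∀ g' ∈ x.coeff.support, x.coeff g' • ((if h : q'.out⁻¹ * g' * q.out ∈ H then
      MonoidAlgebra.single (⟨_, h⟩ : H) (1 : k) else 0 : MonoidAlgebra k H).coeff ⟨_, hq'⟩) =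
      if g' = g then x.coeff g' else 0 := by
    intro g' _
    by_cases hg : g' = g
    · subst hg
      rw [dif_pos hq', if_pos rfl, MonoidAlgebra.coeff_single, Finsupp.single_eq_same,
        smul_eq_mul, mul_one]
    · rw [if_neg hg]
      split_ifs with h
      · rw [MonoidAlgebra.coeff_single, Finsupp.single_eq_of_ne, smul_zero]
        intro h4
        apply hg
        have h5 := congrArg Subtype.val h4
        simp only at h5
        have h6 := mul_right_cancel h5
        exact (mul_left_cancel h6).symm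
      · rw [MonoidAlgebra.coeff_zero, Finsupp.coe_zero, Pi.zero_apply, smul_zero]
  rw [Finset.sum_congr rfl h3, Finset.sum_ite_eq'] at h2
  by_cases hg : g ∈ x.coeff.support
  · rw [if_pos hg] at h2
    exact h2
  · exact Finsupp.notMem_support_iff.mp hg

theorem QE.finiteIndex {K : Type u} [Field K] {G : Type u} [Group G] (H : Subgroup G)
    [H.FiniteIndex] (h : QE K H) : QE K G := by
  classical
  have : Fintype (G ⧸ H) := H.fintypeQuotientOfFiniteIndex
  obtain ⟨P, _, Q, _, _, o, f, hP, hf⟩ := h.exists_algHom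
  let F : MonoidAlgebra K G →ₐ[K] Matrix ((G ⧸ H) × Q) ((G ⧸ H) × Q) (MonoidAlgebra K P) :=
    ((Matrix.compAlgEquiv (G ⧸ H) Q (MonoidAlgebra K P) K : _ →ₐ[K] _).comp
      (f.mapMatrix (m := G ⧸ H))).comp (cosetRep K H)
  refine QE.of_algHom hP ((QuotientGroup.mk 1 : G ⧸ H), o) F ?_
  intro x hx
  refine cosetRep_row H (QuotientGroup.mk 1 : G ⧸ H) x fun q => ?_
  exact hf _ fun j => hx (q, j)

/-- Graph products over finite graphs. -/
theorem QE.graph_fin {K : Type u} [Field K] {V : Type u} [Finite V] (Γ : SimpleGraph V)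
    (G : V → Type v) [∀ v, Group (G v)] (h : ∀ v, QE K (G v)) : QE K (GraphProd Γ G) := by
  classical
  have : Fintype V := Fintype.ofFinite V
  choose P iP Q iF iD o ρ hP hρ using h
  refine ⟨WG Γ P, inferInstance, St Q, inferInstance, inferInstance, (∅, o),
    { toFun := fun g => Mx Γ o ρ g
      map_one' := Mx_one Γ o ρ
      map_mul' := Mx_mul Γ o ρ }, polyTFA_WG Γ hP, ?_⟩
  intro c hc
  exact row_faithful Γ o ρ hρ c hc

section Functor

variable {V : Type u} (Γ : SimpleGraph V) {G : V → Type u} [∀ v, Group (G v)]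

/-- The map of the graph product of subgroups over a set of vertices. -/
def gsub (S : Set V) (H : ∀ v : S, Subgroup (G v)) :
    GraphProd (Γ.induce S) (fun v : S => H v) →* GraphProd Γ G :=
  glift (Γ.induce S) (fun v => (gof Γ G (v : V)).comp (H v).subtype)
    (fun u v h a b => gof_comm Γ (v := (u : V)) (w := (v : V)) h (a : G u) (b : G v))

theorem gsub_gof (S : Set V) (H : ∀ v : S, Subgroup (G v)) (v : S) (a : H v) :
    gsub Γ S H (gof _ _ v a) = gof Γ G (v : V) (a : G v) := by
  rw [gsub, glift_gof]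
  rfl

/-- Enlarging the vertex groups. -/
def gmap (H : ∀ v, Subgroup (G v)) : GraphProd Γ (fun v => H v) →* GraphProd Γ G :=
  glift Γ (fun v => (gof Γ G v).comp (H v).subtype)
    (fun u v h a b => gof_comm Γ h (a : G u) (b : G v))

theorem gmap_gof (H : ∀ v, Subgroup (G v)) (v : V) (a : H v) :
    gmap Γ H (gof _ _ v a) = gof Γ G v (a : G v) := by
  rw [gmap, glift_gof]
  rfl

theorem gmap_injective [Finite V] (H : ∀ v, Subgroup (G v)) :
    Function.Injective (gmap Γ H) := by
  classical
  have : Fintype V := Fintype.ofFinite V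
  let K : Type u := ULift.{u} ℚ
  let ρ : ∀ v, G v →* Matrix PUnit.{u+1} PUnit.{u+1} (MonoidAlgebra K (G v)) := fun v =>
    (Matrix.scalar PUnit.{u+1} : MonoidAlgebra K (G v) →+* _).toMonoidHom.comp
      (MonoidAlgebra.of K (G v))
  let ρ' : ∀ v, H v →* Matrix PUnit.{u+1} PUnit.{u+1} (MonoidAlgebra K (G v)) := fun v =>
    (ρ v).comp (H v).subtype
  have hρ : ∀ v (c : H v →₀ K), (∀ j, c.sum (fun g a => a • ρ' v g PUnit.unit j) = 0) → c = 0 := by
    intro v c hc
    have h1 := hc PUnit.unit
    have h2 : ∀ (g : H v) (a : K), a • ρ' v g PUnit.unit PUnit.unit =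
        MonoidAlgebra.single (g : G v) a := by
      intro g a
      change a • (Matrix.diagonal (fun _ => MonoidAlgebra.single (g : G v) (1 : K)) :
        Matrix PUnit.{u+1} PUnit.{u+1} (MonoidAlgebra K (G v))) PUnit.unit PUnit.unit = _
      rw [Matrix.diagonal_apply_eq, MonoidAlgebra.smul_single, smul_eq_mul, mul_one]
    simp only [h2] at h1
    ext g
    have h3 := congrArg (fun x : MonoidAlgebra K (G v) => x.coeff (g : G v)) h1
    simp only [Finsupp.sum, MonoidAlgebra.coeff_sum, Finsupp.finsetSum_apply,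
      MonoidAlgebra.coeff_single, Finsupp.single_apply, Subtype.val_injective.eq_iff,
      Finset.sum_ite_eq',
      MonoidAlgebra.coeff_zero, Finsupp.coe_zero, Pi.zero_apply] at h3
    by_cases hg : g ∈ c.support
    · rw [if_pos hg] at h3
      rw [h3]
      rfl
    · rw [Finsupp.notMem_support_iff.mp hg]
      rfl
  have hM : ∀ g, Mx Γ (fun _ => PUnit.unit) ρ' g = Mx Γ (fun _ => PUnit.unit) ρ (gmap Γ H g) := by
    have h1 : (Rep Γ (fun _ => PUnit.unit) ρ') =
        (Rep Γ (fun _ => PUnit.unit) ρ).comp (gmap Γ H) := by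
      refine ghom_ext Γ _ _ fun v a => ?_
      rw [MonoidHom.comp_apply, gmap_gof]
      apply Units.ext
      rw [Rep_gof, Rep_gof, MM_apply, MM_apply]
      rfl
    intro g
    rw [Mx, h1]
    rfl
  intro g g' hg
  have h2 := row_faithful Γ (fun _ => PUnit.unit) ρ' hρ (Finsupp.single g 1 - Finsupp.single g' 1)
    (by
      intro s
      have e1 : (Finsupp.single g (1 : K)).sum (fun g a => a • Mx Γ (fun _ => PUnit.unit) ρ' g
          (∅, fun _ => PUnit.unit) s) = (1 : K) • Mx Γ (fun _ => PUnit.unit) ρ' g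
          (∅, fun _ => PUnit.unit) s := Finsupp.sum_single_index (zero_smul _ _)
      have e2 : (Finsupp.single g' (1 : K)).sum (fun g a => a • Mx Γ (fun _ => PUnit.unit) ρ' g
          (∅, fun _ => PUnit.unit) s) = (1 : K) • Mx Γ (fun _ => PUnit.unit) ρ' g'
          (∅, fun _ => PUnit.unit) s := Finsupp.sum_single_index (zero_smul _ _)
      rw [Finsupp.sum_sub_index (fun g a b => sub_smul _ _ _), e1, e2, hM, hM, hg, sub_self])
  rw [sub_eq_zero] at h2
  exact Finsupp.single_left_injective one_ne_zero h2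

/-- The retraction to the vertices of a set. -/
noncomputable def gretr (S : Set V) : GraphProd Γ G →* GraphProd (Γ.induce S) (fun v : S => G v) := by
  classical
  exact glift Γ (fun v => if h : v ∈ S then gof (Γ.induce S) (fun v : S => G v) ⟨v, h⟩ else 1)
    (fun v w h a b => by
      split_ifs with h1 h2 h2
      · exact gof_comm (Γ.induce S) (G := fun v : S => G v) (v := ⟨v, h1⟩) (w := ⟨w, h2⟩) h a b
      · exact Commute.one_right _
      · exact Commute.one_left _
      · exact Commute.one_left _)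

/-- The inclusion of the vertices of a set. -/
def gincl (S : Set V) : GraphProd (Γ.induce S) (fun v : S => G v) →* GraphProd Γ G :=
  glift (Γ.induce S) (fun v => gof Γ G (v : V))
    (fun u v h a b => gof_comm Γ (v := (u : V)) (w := (v : V)) h a b)

theorem gincl_injective (S : Set V) : Function.Injective (gincl Γ (G := G) S) := by
  classical
  have h1 : (gretr Γ (G := G) S).comp (gincl Γ S) = MonoidHom.id _ := by
    refine ghom_ext _ _ _ fun v a => ?_
    rw [MonoidHom.comp_apply, gincl, glift_gof, gretr, glift_gof, dif_pos v.2]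
    rfl
  intro x y hxy
  have h2 := congrArg (gretr Γ (G := G) S) hxy
  have h3 : ∀ z, gretr Γ (G := G) S (gincl Γ S z) = z := fun z => DFunLike.congr_fun h1 z
  rwa [h3, h3] at h2

theorem gsub_injective (S : Set V) [Finite S] (H : ∀ v : S, Subgroup (G v)) :
    Function.Injective (gsub Γ S H) := by
  have h1 : gsub Γ S H = (gincl Γ S).comp (gmap (Γ.induce S) H) := by
    refine ghom_ext _ _ _ fun v a => ?_
    rw [gsub_gof, MonoidHom.comp_apply, gmap_gof, gincl, glift_gof]
  rw [h1]
  exact (gincl_injective Γ S).comp (gmap_injective (Γ.induce S) H)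

end Functor

end Pool.Agent.U563.GP
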